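import Pool.Agent.N799.GL.Fam

/-!
# Counting zeros by Jensen's formula; few zeros give the expected size
-/

set_option autoImplicit false

open Complex Metric Set Filter Topology

namespace Pool.Agent.N799.GL

open Pool.Agent.N799.SP Pool.Agent.N799.LH

variable {α : Type*} {f : α → ℂ → ℂ} {ℓ : α → ℝ} {κ δ g : ℝ} {M : ℕ}

/-- small values of `f` give few zeros -/
theorem count (H : Fam f ℓ κ δ g M) (l : List ℂ) (R x θ ε : ℝ) (hθ : 0 < θ)
    (hθ1 : θ ≤ 1) (hε : 0 < ε) :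
    ∃ ε' R1 L : ℝ, 0 < ε' ∧ ∀ a, L ≤ ℓ a → ∀ σ : ℝ, 1 / 2 ≤ σ → σ ≤ κ →
      (∀ w : ℂ, σ ≤ w.re → |w.im| ≤ R1 → ‖f a w‖ ≤ Real.exp (ε' * ℓ a)) →
      ZL (TT l (hh (f a))) {w | σ + θ ≤ w.re ∧ w.re ≤ x ∧ |w.im| ≤ R} (ε * ℓ a) := by
  have hκ := H.κ0
  set x2 : ℝ := max (κ + 2 * R ^ 2 / θ + θ + 1) x with hx2
  have hx2a : κ + 2 * R ^ 2 / θ + θ + 1 ≤ x2 := le_max_left _ _
  have hx2b : x ≤ x2 := le_max_right _ _
  have hRθ : 0 ≤ 2 * R ^ 2 / θ := by positivity
  set q : ℝ := 1 + θ / 4 / (x2 + 1) with hq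
  have hq1 : 1 < q := by
    have : 0 < θ / 4 / (x2 + 1) := by
      have : 0 < x2 + 1 := by linarith
      positivity
    linarith
  have hlq : 0 < Real.log q := Real.log_pos hq1
  set a0 : ℝ := ε * Real.log q / 2 with ha0
  have ha00 : 0 < a0 := by positivity
  set ρ : ℝ := min (θ / 2) (a0 / 4) with hρ
  have hρ0 : 0 < ρ := by positivity
  have hρ1 : ρ ≤ θ / 2 := min_le_left _ _
  have hρ2 : ρ ≤ a0 / 4 := min_le_right _ _
  obtain ⟨C, hC, hT⟩ := TT_bound l ρ (ρ / 2) (by linarith)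
  obtain ⟨K, hK⟩ := H.up (x2 + 2) (2 * x2 + 3)
  obtain ⟨L1, hL1⟩ := centre H l 0 x2 a0 (by linarith) ha00
  refine ⟨a0 / 4, x2 + 2, max (max L1 0) (4 * (Real.log C + K) / a0), by positivity, ?_⟩
  intro a ha σ hσ1 hσ2 hsmall
  have c1 : L1 ≤ ℓ a := ((le_max_left _ _).trans (le_max_left _ _)).trans ha
  have c3 : 4 * (Real.log C + K) ≤ a0 * ℓ a := by
    have := (le_max_right _ _).trans ha
    rw [div_le_iff₀ ha00] at this
    linarith
  have hℓ := H.ℓ0 a
  obtain ⟨i, hi, hcen⟩ := hL1 a c1 0 (by simp)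
  set c : ℂ := ⟨x2 + i / (M + 1), 0⟩ with hc
  have hcre : c.re = x2 + i / (M + 1) := rfl
  have hcim : c.im = 0 := rfl
  have hM : (0 : ℝ) < M + 1 := by positivity
  have hi1 : (i : ℝ) / (M + 1) ≤ 1 := by
    rw [div_le_one hM]
    have : (i : ℝ) ≤ M := by exact_mod_cast hi
    linarith
  have hi0 : (0 : ℝ) ≤ i / (M + 1) := by positivity
  have hcc := hcen c (mem_closedBall_self (by positivity))
  have hFd : Differentiable ℂ (TT l (hh (f a))) := TT_entire l (H.hd a)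
  have hJ := jensen_q hq1 (GG (ℓ a) (TT l (hh (f a)))) c (c.re - σ - θ / 2) (c.re - σ - 3 * θ / 4)
    (a0 * ℓ a) (by linarith) (by
      have h1 : q * (c.re - σ - 3 * θ / 4) = (c.re - σ - 3 * θ / 4) +
          θ / 4 / (x2 + 1) * (c.re - σ - 3 * θ / 4) := by rw [hq]; ring
      have h2 : θ / 4 / (x2 + 1) * (c.re - σ - 3 * θ / 4) ≤ θ / 4 / (x2 + 1) * (x2 + 1) := by
        have : 0 < x2 + 1 := by linarith
        gcongr
        linarith
      have h3 : θ / 4 / (x2 + 1) * (x2 + 1) = θ / 4 := by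
        have : x2 + 1 ≠ 0 := by linarith
        field_simp
      linarith) (by positivity) (fun z _ => GG_analytic hFd) (by
      intro z hz
      obtain ⟨h1, h2⟩ := cball_coords hz
      rw [hcim, sub_zero] at h2
      have h1' := abs_le.1 h1
      apply GG_le
      have h3 := hT (hh (f a)) z (Real.exp ((z.re - 1 / 2 + ρ) * ℓ a + (K + a0 / 4 * ℓ a)))
        (Real.exp_pos _).le (H.hd a).differentiableOn (by
          intro v hv
          have h4 := abs_lt.1 (ball_coords hv).1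
          have h5 := (ball_coords hv).2
          have h6 : |v.im| ≤ x2 + 2 := by
            calc |v.im| = |(v.im - z.im) + z.im| := by congr 1; ring
              _ ≤ |v.im - z.im| + |z.im| := abs_add_le _ _
              _ ≤ x2 + 2 := by linarith
          have h7 := hK a v (by linarith) (by linarith) h6
          have h8 := hsmall v (by linarith) h6
          calc ‖hh (f a) v‖ ≤ Real.exp ((v.re - 1 / 2) * ℓ a + K) * Real.exp (a0 / 4 * ℓ a) :=
                h7.trans (by gcongr)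
            _ = Real.exp ((v.re - 1 / 2) * ℓ a + K + a0 / 4 * ℓ a) := by rw [← Real.exp_add]
            _ ≤ _ := by
              apply Real.exp_le_exp.2
              have : (v.re - 1 / 2) * ℓ a ≤ (z.re - 1 / 2 + ρ) * ℓ a := by
                gcongr
                linarith
              linarith) z (mem_ball_self (by positivity))
      refine h3.trans ?_
      nth_rewrite 1 [← Real.exp_log hC]
      rw [← Real.exp_add]
      apply Real.exp_le_exp.2
      have h4 : ρ * ℓ a ≤ a0 / 4 * ℓ a := by gcongr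
      have h5 : 0 ≤ a0 * ℓ a := by positivity
      linarith) (le_GG hcc.2.2)
  rw [ZL_GG hFd] at hJ
  refine hJ.mono ?_ (le_of_eq ?_)
  · rintro w ⟨h1, h2, h3⟩
    rw [mem_closedBall, dist_eq_norm]
    have e1 : ‖w - c‖ ^ 2 = (w.re - c.re) ^ 2 + w.im ^ 2 := by
      rw [← Complex.normSq_eq_norm_sq, Complex.normSq_apply]
      simp only [sub_re, sub_im, hcim]
      ring
    refine abs_le_of_sq_le_sq' ?_ (by linarith) |>.2
    rw [e1]
    have e2 : (w.re - c.re) ^ 2 ≤ (c.re - σ - θ) ^ 2 := by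
      have h5 : 0 ≤ c.re - w.re := by linarith
      have h6 : c.re - w.re ≤ c.re - σ - θ := by linarith
      nlinarith
    have e3 : w.im ^ 2 ≤ R ^ 2 := by
      rw [← sq_abs]
      gcongr
    have e4 : R ^ 2 ≤ θ / 4 * (2 * (c.re - σ) - 7 * θ / 4) := by
      have h7 : θ / 4 * (2 * (2 * R ^ 2 / θ + θ + 1) - 7 * θ / 4) ≤
          θ / 4 * (2 * (c.re - σ) - 7 * θ / 4) := by
        gcongr
        linarith
      have h8 : θ / 4 * (2 * (2 * R ^ 2 / θ + θ + 1) - 7 * θ / 4) = R ^ 2 + θ / 4 * (θ / 4 + 2) := by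
        field_simp
        ring
      have h9 : 0 ≤ θ / 4 * (θ / 4 + 2) := by positivity
      linarith
    nlinarith
  · rw [ha0]
    field_simp

/-- zeros far to the right -/
theorem count_far (H : Fam f ℓ κ δ g M) (l : List ℂ) (R x θ ε : ℝ) (hθ : 0 < θ)
    (hε : 0 < ε) :
    ∃ L : ℝ, ∀ a, L ≤ ℓ a →
      ZL (TT l (hh (f a))) {w | κ + θ ≤ w.re ∧ w.re ≤ x ∧ |w.im| ≤ R} (ε * ℓ a) := by
  obtain ⟨ε', R1, L, hε', h⟩ := count H l R x (min θ 1) ε (by positivity) (min_le_right _ _) hε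
  obtain ⟨K, hK⟩ := H.right
  have hκ := H.κ0
  refine ⟨max L (K / ε'), fun a ha => (h a ((le_max_left _ _).trans ha) κ (by linarith) le_rfl ?_).mono
    ?_ le_rfl⟩
  · intro w hw _
    refine (hK a w hw).trans (Real.exp_le_exp.2 ?_)
    have := (le_max_right _ _).trans ha
    rw [div_le_iff₀ hε'] at this
    linarith
  · rintro w ⟨h1, h2, h3⟩
    exact ⟨by linarith [min_le_left θ 1], h2, h3⟩

/-- few zeros give the expected size -/
theorem size (H : Fam f ℓ κ δ g M) (l : List ℂ) (R B ε : ℝ) (hB : κ - 1 < B)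
    (hε : 0 < ε) (hε1 : ε ≤ 1 / 2) : ∃ η A L : ℝ, 0 < η ∧ ∀ a, L ≤ ℓ a →
    ZL (TT l (hh (f a))) {w | 1 / 2 + η ≤ w.re ∧ w.re ≤ 1 + B ∧ |w.im| ≤ A} (η * ℓ a) →
    ∀ w : ℂ, |w.im| ≤ R → 1 / 2 + ε ≤ w.re → w.re ≤ κ + 1 →
      ‖TT l (hh (f a)) w‖ ≤ Real.exp ((w.re - 1 / 2) * ℓ a + ε * ℓ a) := by
  have hκ := H.κ0
  have hg := H.g1
  have hM : (0 : ℝ) < M + 1 := by positivity
  have hM1 : 1 / (8 * ((M : ℝ) + 1)) ≤ 1 / 8 := by
    apply one_div_le_one_div_of_le (by norm_num)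
    have : (0 : ℝ) ≤ M := Nat.cast_nonneg M
    linarith
  have hM0 : 0 < 1 / (8 * ((M : ℝ) + 1)) := by positivity
  -- the constants of Backlund's argument for each centre
  obtain ⟨η0, L0, hη0, hfew⟩ := fin_choice (P := fun i η x => ∀ e : ℝ, 0 ≤ e → x ≤ e →
      ∀ (F : ℂ → ℂ) (c : ℂ),
      AnalyticOnNhd ℂ F (closedBall c (κ + 1 + i / (M + 1) - 1 / 2 - ε / 2)) →
      (∀ z ∈ closedBall c (κ + 1 + i / (M + 1) - 1 / 2 - ε / 2),
        ‖F z‖ ≤ Real.exp ((g + (2 * κ + 4) + 1) * e)) →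
      (∀ z ∈ closedBall c (1 / (8 * ((M : ℝ) + 1))), F z ≠ 0 ∧ ‖F z‖ ≤ Real.exp (η * e)) →
      Real.exp (-(η * e)) ≤ ‖F c‖ →
      ZL F (closedBall c (κ + 1 + i / (M + 1) - 1 / 2 - ε / 2)) (η * e) →
      ∀ z ∈ closedBall c (κ + 1 + i / (M + 1) - 1 / 2 - ε), ‖F z‖ ≤ Real.exp (ε * e)) (by
      intro i η η' x x' hP hη' hηη hxx e he he2 F c h1 h2 h3 h4 h5
      exact hP e he (hxx.trans he2) F c h1 h2
        (fun z hz => ⟨(h3 z hz).1, (h3 z hz).2.trans (Real.exp_le_exp.2 (by gcongr))⟩)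
        ((Real.exp_le_exp.2 (by
          have : η' * e ≤ η * e := by gcongr
          linarith)).trans h4)
        (h5.mono Subset.rfl (by gcongr))) M (by
      intro i hi
      have hi0 : (0 : ℝ) ≤ i / (M + 1) := by positivity
      obtain ⟨η, L, hη, hL, h⟩ := few_small (κ + 1 + i / (M + 1) - 1 / 2 - ε / 2)
        (κ + 1 + i / (M + 1) - 1 / 2 - ε) (1 / (8 * ((M : ℝ) + 1))) (g + (2 * κ + 4) + 1) ε hM0
        (by linarith) (by linarith) (by linarith) hε
      exact ⟨η, L, hη, fun e _ he2 F c h1 h2 h3 h4 h5 => h e he2 F c h1 h2 h3 h4 h5⟩)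
  obtain ⟨L1, hcen⟩ := centre H l R (κ + 1) η0 le_rfl hη0
  obtain ⟨L2, hfar⟩ := count_far H l (R + κ + 2) (2 * κ + 4) (1 + B - κ) (η0 / 2)
    (by linarith) (by positivity)
  obtain ⟨K, hcr⟩ := F_crude H l (R + κ + 2) (2 * κ + 4) (ε / 2) (by positivity) (by linarith)
  refine ⟨min (η0 / 2) (ε / 2), R + κ + 2, max (max L0 L1) (max L2 (max K 0)), by positivity, ?_⟩
  intro a ha hZ w hw1 hw2 hw3
  have c0 : L0 ≤ ℓ a := ((le_max_left _ _).trans (le_max_left _ _)).trans ha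
  have c1 : L1 ≤ ℓ a := ((le_max_right _ _).trans (le_max_left _ _)).trans ha
  have c2 : L2 ≤ ℓ a := ((le_max_left _ _).trans (le_max_right _ _)).trans ha
  have c3 : K ≤ ℓ a := ((le_max_left _ _).trans ((le_max_right _ _).trans (le_max_right _ _))).trans ha
  have hℓ := H.ℓ0 a
  obtain ⟨i, hi, hc⟩ := hcen a c1 w.im hw1
  set c : ℂ := ⟨κ + 1 + i / (M + 1), w.im⟩ with hcd
  have hcre : c.re = κ + 1 + i / (M + 1) := rfl
  have hcim : c.im = w.im := rfl
  have hi1 : (i : ℝ) / (M + 1) ≤ 1 := by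
    rw [div_le_one hM]
    have : (i : ℝ) ≤ M := by exact_mod_cast hi
    linarith
  have hi0 : (0 : ℝ) ≤ i / (M + 1) := by positivity
  have hFd : Differentiable ℂ (TT l (hh (f a))) := TT_entire l (H.hd a)
  have hreg : ∀ z ∈ closedBall c (κ + 1 + i / (M + 1) - 1 / 2 - ε / 2), 1 / 2 + ε / 2 ≤ z.re ∧
      z.re ≤ 2 * κ + 4 ∧ |z.im| ≤ R + κ + 2 := by
    intro z hz
    obtain ⟨h1, h2⟩ := cball_coords hz
    rw [hcre] at h1
    rw [hcim] at h2
    have h1' := abs_le.1 h1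
    refine ⟨by linarith, by linarith, ?_⟩
    calc |z.im| = |(z.im - w.im) + w.im| := by congr 1; ring
      _ ≤ |z.im - w.im| + |w.im| := abs_add_le _ _
      _ ≤ R + κ + 2 := by linarith
  have key := hfew i hi (ℓ a) hℓ c0 (GG (ℓ a) (TT l (hh (f a)))) c
    (fun z _ => GG_analytic hFd) (by
      intro z hz
      obtain ⟨h1, h2, h3⟩ := hreg z hz
      apply GG_le
      refine (hcr a z h1 h2 h3).trans (Real.exp_le_exp.2 ?_)
      have : 0 ≤ (z.re - 1 / 2) * ℓ a := mul_nonneg (by linarith) hℓ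
      linarith)
    (fun z hz => ⟨GG_ne (hc z hz).1, GG_le (hc z hz).2.1⟩)
    (le_GG (hc c (mem_closedBall_self hM0.le)).2.2)
    (by
      rw [ZL_GG hFd]
      have h1 := hZ.union (hfar a c2)
      refine h1.mono ?_ ?_
      · intro z hz
        obtain ⟨h1, h2, h3⟩ := hreg z hz
        rcases le_or_gt z.re (1 + B) with h4 | h4
        · left
          exact ⟨by linarith [min_le_right (η0 / 2) (ε / 2)], h4, h3⟩
        · right
          exact ⟨by linarith, h2, h3⟩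
      · have : min (η0 / 2) (ε / 2) * ℓ a ≤ η0 / 2 * ℓ a := by
          gcongr
          exact min_le_left _ _
        linarith) w (by
      rw [mem_closedBall, dist_eq_norm]
      have e : w - c = ((w.re - c.re : ℝ) : ℂ) := by
        apply Complex.ext
        · rw [sub_re, ofReal_re]
        · rw [sub_im, ofReal_im, hcim, sub_self]
      rw [e, Complex.norm_real, Real.norm_eq_abs, hcre, abs_le]
      constructor <;> linarith)
  exact le_of_GG key

end Pool.Agent.N799.GL
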