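import Pool.Agent.N799.LH.Left

/-!
# Families of functions with a functional equation: the zeros of `TT l` of the reflected function
-/

set_option autoImplicit false

open Complex Metric Set Filter Topology

namespace Pool.Agent.N799.GL

open Pool.Agent.N799.SP Pool.Agent.N799.LH

/-- the reflected function -/
noncomputable def hh (f : ℂ → ℂ) (w : ℂ) : ℂ := (starRingEnd ℂ) (f (1 - (starRingEnd ℂ) w))

/-- analytic data of a family, uniform in windows around the real axis; `ℓ` is the logarithm of the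
conductor -/
structure Fam {α : Type*} (f : α → ℂ → ℂ) (ℓ : α → ℝ) (κ δ g : ℝ) (M : ℕ) : Prop where
  κ0 : 1 ≤ κ
  δ0 : 0 < δ
  δ1 : δ ≤ 1 / 2
  g1 : 1 ≤ g
  ℓ0 : ∀ a, 0 ≤ ℓ a
  fd : ∀ a, Differentiable ℂ (f a)
  hd : ∀ a, Differentiable ℂ (hh (f a))
  grow : ∀ R : ℝ, ∃ K : ℝ, ∀ a (s : ℂ), 0 ≤ s.re → |s.im| ≤ R → ‖f a s‖ ≤ Real.exp (g * ℓ a + K)
  right : ∃ K : ℝ, ∀ a (s : ℂ), κ ≤ s.re → ‖f a s‖ ≤ Real.exp K
  up : ∀ R x : ℝ, ∃ K : ℝ, ∀ a (w : ℂ), 1 / 2 ≤ w.re → w.re ≤ x → |w.im| ≤ R →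
    ‖hh (f a) w‖ ≤ Real.exp ((w.re - 1 / 2) * ℓ a + K) * ‖f a w‖
  low : ∀ R : ℝ, ∃ K : ℝ, ∀ a (w : ℂ), 1 / 2 ≤ w.re → w.re ≤ 1 / 2 + δ → |w.im| ≤ R →
    Real.exp ((w.re - 1 / 2) * ℓ a - K) * ‖f a w‖ ≤ ‖hh (f a) w‖
  cen : ∀ R x : ℝ, κ + 1 ≤ x → ∃ K : ℝ, ∀ a (y : ℝ), |y| ≤ R → ∃ i ≤ M,
    ∀ w ∈ ball (⟨x + i / (M + 1), y⟩ : ℂ) (1 / (4 * (M + 1))),
      hh (f a) w ≠ 0 ∧ ‖deriv (hh (f a)) w / hh (f a) w - ℓ a‖ ≤ K ∧
        Real.exp ((w.re - 1 / 2) * ℓ a - K) ≤ ‖hh (f a) w‖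

variable {α : Type*} {f : α → ℂ → ℂ} {ℓ : α → ℝ} {κ δ g : ℝ} {M : ℕ}

/-- normalisation -/
noncomputable def GG (x : ℝ) (F : ℂ → ℂ) (w : ℂ) : ℂ := F w * Complex.exp (-(x : ℂ) * (w - 1 / 2))

theorem norm_GG (x : ℝ) (F : ℂ → ℂ) (w : ℂ) :
    ‖GG x F w‖ = ‖F w‖ * Real.exp (-(x * (w.re - 1 / 2))) := by
  unfold GG
  rw [norm_mul, Complex.norm_exp]
  congr 2
  have : -(x : ℂ) * (w - 1 / 2) = ((-x : ℝ) : ℂ) * (w - ((1 / 2 : ℝ) : ℂ)) := by push_cast; ring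
  rw [this, re_ofReal_mul, sub_re, ofReal_re]
  ring

theorem GG_le {x : ℝ} {F : ℂ → ℂ} {w : ℂ} {e : ℝ} (h : ‖F w‖ ≤ Real.exp ((w.re - 1 / 2) * x + e)) :
    ‖GG x F w‖ ≤ Real.exp e := by
  rw [norm_GG]
  calc ‖F w‖ * Real.exp (-(x * (w.re - 1 / 2))) ≤
        Real.exp ((w.re - 1 / 2) * x + e) * Real.exp (-(x * (w.re - 1 / 2))) := by gcongr
    _ = Real.exp e := by rw [← Real.exp_add]; congr 1; ring

theorem le_GG {x : ℝ} {F : ℂ → ℂ} {w : ℂ} {e : ℝ} (h : Real.exp ((w.re - 1 / 2) * x + e) ≤ ‖F w‖) :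
    Real.exp e ≤ ‖GG x F w‖ := by
  rw [norm_GG]
  calc Real.exp e = Real.exp ((w.re - 1 / 2) * x + e) * Real.exp (-(x * (w.re - 1 / 2))) := by
        rw [← Real.exp_add]; congr 1; ring
    _ ≤ _ := by gcongr

theorem le_of_GG {x : ℝ} {F : ℂ → ℂ} {w : ℂ} {e : ℝ} (h : ‖GG x F w‖ ≤ Real.exp e) :
    ‖F w‖ ≤ Real.exp ((w.re - 1 / 2) * x + e) := by
  rw [norm_GG] at h
  have h2 : Real.exp (-(x * (w.re - 1 / 2))) * Real.exp (x * (w.re - 1 / 2)) = 1 := by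
    rw [← Real.exp_add, neg_add_cancel, Real.exp_zero]
  calc ‖F w‖ = ‖F w‖ * Real.exp (-(x * (w.re - 1 / 2))) * Real.exp (x * (w.re - 1 / 2)) := by
        rw [mul_assoc, h2, mul_one]
    _ ≤ Real.exp e * Real.exp (x * (w.re - 1 / 2)) := by gcongr
    _ = _ := by rw [← Real.exp_add]; congr 1; ring

theorem GG_ne {x : ℝ} {F : ℂ → ℂ} {w : ℂ} (h : F w ≠ 0) : GG x F w ≠ 0 :=
  mul_ne_zero h (Complex.exp_ne_zero _)

theorem GG_analytic {x : ℝ} {F : ℂ → ℂ} {w : ℂ} (h : Differentiable ℂ F) : AnalyticAt ℂ (GG x F) w := by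
  unfold GG
  exact (h.analyticAt w).mul (by fun_prop)

theorem GG_order {x : ℝ} {F : ℂ → ℂ} {w : ℂ} (h : Differentiable ℂ F) :
    analyticOrderNatAt (GG x F) w = analyticOrderNatAt F w :=
  order_mul_exp (h.analyticAt w) (by fun_prop) (Complex.exp_ne_zero _)

theorem ZL_GG {x : ℝ} {F : ℂ → ℂ} (h : Differentiable ℂ F) {U : Set ℂ} {B : ℝ} :
    ZL (GG x F) U B ↔ ZL F U B := by
  constructor
  · exact ZL.comp (σ := id) Function.injective_id
      (fun z _ h0 => by simp only [id, GG]; rw [h0, zero_mul]) (fun z _ _ => (GG_order h).symm)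
      (fun z hz _ => hz)
  · exact ZL.comp (σ := id) Function.injective_id
      (fun z _ h0 => (mul_eq_zero.1 h0).resolve_right (Complex.exp_ne_zero _))
      (fun z _ _ => GG_order h) (fun z hz _ => hz)

theorem TT_entire (l : List ℂ) {F : ℂ → ℂ} (h : Differentiable ℂ F) : Differentiable ℂ (TT l F) :=
  differentiableOn_univ.1 (TT_diff isOpen_univ l h.differentiableOn)

/-- Jensen's bound for the number of zeros, uniform in the radii -/
theorem jensen_q {q : ℝ} (hq : 1 < q) (F : ℂ → ℂ) (c : ℂ) (R r a : ℝ) (hr : 0 < r) (hrR : q * r ≤ R)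
    (ha : 0 ≤ a) (hf : AnalyticOnNhd ℂ F (closedBall c R))
    (hb : ∀ z ∈ closedBall c R, ‖F z‖ ≤ Real.exp a) (hc : Real.exp (-a) ≤ ‖F c‖) :
    ZL F (closedBall c r) (2 / Real.log q * a) := by
  intro S hS
  have hR0 : r < R := by nlinarith
  have hlq : 0 < Real.log q := Real.log_pos hq
  have hlog : Real.log q ≤ Real.log (R / r) := by
    apply Real.log_le_log (by linarith)
    rw [le_div_iff₀ hr]; exact hrR
  have hfc : 0 < ‖F c‖ := lt_of_lt_of_le (Real.exp_pos _) hc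
  have h1 := H370.Loc.jensen_mult hr hR0 (Real.one_le_exp ha) hf (norm_pos_iff.1 hfc) hb S
    (fun z hz => (hS z hz).1)
  have h2 : Real.log (Real.exp a / ‖F c‖) ≤ 2 * a := by
    rw [Real.log_div (Real.exp_pos _).ne' hfc.ne', Real.log_exp]
    have h3 := Real.log_le_log (Real.exp_pos _) hc
    rw [Real.log_exp] at h3
    linarith
  refine (show ∑ z ∈ S, (analyticOrderNatAt F z : ℝ) ≤ _ from h1).trans ?_
  rw [div_mul_eq_mul_div]
  have : 0 ≤ 2 * a := by positivity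
  calc Real.log (Real.exp a / ‖F c‖) / Real.log (R / r) ≤ 2 * a / Real.log (R / r) :=
        div_le_div_of_nonneg_right h2 (by linarith)
    _ ≤ 2 * a / Real.log q := by gcongr

/-- uniform choice of constants over finitely many indices -/
theorem fin_choice {P : ℕ → ℝ → ℝ → Prop}
    (mono : ∀ i η η' x x', P i η x → 0 < η' → η' ≤ η → x ≤ x' → P i η' x') (M : ℕ)
    (h : ∀ i ≤ M, ∃ η x : ℝ, 0 < η ∧ P i η x) : ∃ η x : ℝ, 0 < η ∧ ∀ i ≤ M, P i η x := by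
  induction M with
  | zero =>
    obtain ⟨η, x, hη, hP⟩ := h 0 le_rfl
    refine ⟨η, x, hη, fun i hi => ?_⟩
    have : i = 0 := by omega
    rw [this]; exact hP
  | succ n ih =>
    obtain ⟨η, x, hη, hP⟩ := ih fun i hi => h i (by omega)
    obtain ⟨η', x', hη', hP'⟩ := h (n + 1) le_rfl
    refine ⟨min η η', max x x', by positivity, fun i hi => ?_⟩
    rcases Nat.lt_or_ge i (n + 1) with h1 | h1
    · exact mono i η _ x _ (hP i (by omega)) (by positivity) (min_le_left _ _) (le_max_left _ _)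
    · have : i = n + 1 := by omega
      rw [this]
      exact mono _ η' _ x' _ hP' (by positivity) (min_le_right _ _) (le_max_right _ _)

/-- crude bound -/
theorem F_crude (H : Fam f ℓ κ δ g M) (l : List ℂ) (R x ρ : ℝ) (hρ : 0 < ρ) (hρ1 : ρ ≤ 1 / 2) :
    ∃ K : ℝ, ∀ a (w : ℂ), 1 / 2 + ρ ≤ w.re → w.re ≤ x → |w.im| ≤ R →
      ‖TT l (hh (f a)) w‖ ≤ Real.exp ((g + x) * ℓ a + K) := by
  obtain ⟨C, hC, hT⟩ := TT_bound l ρ (ρ / 2) (by linarith)
  obtain ⟨K1, h1⟩ := H.grow (R + 1)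
  obtain ⟨K2, h2⟩ := H.up (R + 1) (x + 1)
  refine ⟨Real.log C + K1 + K2, fun a w hw1 hw2 hw3 => ?_⟩
  have hℓ := H.ℓ0 a
  have h3 := hT (hh (f a)) w (Real.exp ((g + x) * ℓ a + (K1 + K2))) (Real.exp_pos _).le
    (H.hd a).differentiableOn (by
      intro z hz
      have h4 := abs_lt.1 (ball_coords hz).1
      have h5 := (ball_coords hz).2
      have h6 : |z.im| ≤ R + 1 := by
        calc |z.im| = |(z.im - w.im) + w.im| := by congr 1; ring
          _ ≤ |z.im - w.im| + |w.im| := abs_add_le _ _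
          _ ≤ R + 1 := by linarith
      have h7 := h1 a z (by linarith) h6
      have h8 := h2 a z (by linarith) (by linarith) h6
      calc ‖hh (f a) z‖ ≤ Real.exp ((z.re - 1 / 2) * ℓ a + K2) * ‖f a z‖ := h8
        _ ≤ Real.exp ((z.re - 1 / 2) * ℓ a + K2) * Real.exp (g * ℓ a + K1) := by gcongr
        _ = Real.exp ((z.re - 1 / 2) * ℓ a + K2 + (g * ℓ a + K1)) := by rw [← Real.exp_add]
        _ ≤ _ := by
          apply Real.exp_le_exp.2
          have : (z.re - 1 / 2) * ℓ a ≤ x * ℓ a := by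
            gcongr
            linarith
          linarith) w (mem_ball_self (by positivity))
  refine h3.trans (le_of_eq ?_)
  nth_rewrite 1 [← Real.exp_log hC]
  rw [← Real.exp_add]
  congr 1
  ring

/-- bounds around a good centre -/
theorem centre (H : Fam f ℓ κ δ g M) (l : List ℂ) (R x η : ℝ) (hx : κ + 1 ≤ x) (hη : 0 < η) :
    ∃ L : ℝ, ∀ a, L ≤ ℓ a → ∀ y : ℝ, |y| ≤ R → ∃ i ≤ M,
      ∀ w ∈ closedBall (⟨x + i / (M + 1), y⟩ : ℂ) (1 / (8 * (M + 1))),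
        TT l (hh (f a)) w ≠ 0 ∧
        ‖TT l (hh (f a)) w‖ ≤ Real.exp ((w.re - 1 / 2) * ℓ a + η * ℓ a) ∧
        Real.exp ((w.re - 1 / 2) * ℓ a + (-(η * ℓ a))) ≤ ‖TT l (hh (f a)) w‖ := by
  have hM : (0 : ℝ) < M + 1 := by positivity
  obtain ⟨K1, h1⟩ := H.cen R x hx
  obtain ⟨K2, h2⟩ := H.up (R + 1) (x + 2)
  obtain ⟨K3, h3⟩ := H.right
  obtain ⟨δ', L1, hδ', hL1, hLD⟩ := LD_list l (1 / (4 * (M + 1))) (3 / (16 * (M + 1))) 1
    (by
      rw [div_lt_div_iff₀ (by positivity) (by positivity)]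
      linarith) one_pos
  obtain ⟨L2, hL2, hbig⟩ := log_big l.length (K2 + K3 + |K1|) η hη
  refine ⟨max (max L1 L2) (max 2 (max (K1 / δ') (K1 / η))), fun a ha y hy => ?_⟩
  have c1 : L1 ≤ ℓ a := ((le_max_left _ _).trans (le_max_left _ _)).trans ha
  have c2 : L2 ≤ ℓ a := ((le_max_right _ _).trans (le_max_left _ _)).trans ha
  have c3 : 2 ≤ ℓ a := ((le_max_left _ _).trans (le_max_right _ _)).trans ha
  have c4 : K1 ≤ δ' * ℓ a := by
    have := ((le_max_left _ _).trans ((le_max_right _ _).trans (le_max_right _ _))).trans ha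
    rw [div_le_iff₀ hδ'] at this
    linarith
  have c5 : K1 ≤ η * ℓ a := by
    have := ((le_max_right _ _).trans ((le_max_right _ _).trans (le_max_right _ _))).trans ha
    rw [div_le_iff₀ hη] at this
    linarith
  obtain ⟨i, hi, h4⟩ := h1 a y hy
  set c : ℂ := ⟨x + i / (M + 1), y⟩ with hc
  have hcre : c.re = x + i / (M + 1) := rfl
  have hcim : c.im = y := rfl
  have hi1 : (i : ℝ) / (M + 1) ≤ 1 := by
    rw [div_le_one hM]
    have : (i : ℝ) ≤ M := by exact_mod_cast hi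
    linarith
  have hi0 : (0 : ℝ) ≤ i / (M + 1) := by positivity
  have hr4 : 1 / (4 * ((M : ℝ) + 1)) ≤ 1 / 4 := by
    apply one_div_le_one_div_of_le (by norm_num)
    have : (0 : ℝ) ≤ M := Nat.cast_nonneg M
    linarith
  refine ⟨i, hi, fun w hw => ?_⟩
  obtain ⟨g1, g2⟩ := hLD (hh (f a)) c (ℓ a) c1 ⟨(H.hd a).differentiableOn, fun z hz =>
    ⟨(h4 z hz).1, (h4 z hz).2.1.trans c4⟩⟩
  have hsub : closedBall c (1 / (8 * ((M : ℝ) + 1))) ⊆ ball c (3 / (16 * ((M : ℝ) + 1))) := by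
    apply closedBall_subset_ball
    rw [div_lt_div_iff₀ (by positivity) (by positivity)]
    linarith
  have hsub2 : ball c (3 / (16 * ((M : ℝ) + 1))) ⊆ ball c (1 / (4 * ((M : ℝ) + 1))) := by
    apply ball_subset_ball
    rw [div_le_div_iff₀ (by positivity) (by positivity)]
    linarith
  have hw1 := hsub hw
  have hw2 := hsub2 hw1
  have hw3 := abs_lt.1 (ball_coords hw2).1
  have hw4 := (ball_coords hw2).2
  rw [hcre] at hw3
  rw [hcim] at hw4
  have hwim : |w.im| ≤ R + 1 := by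
    calc |w.im| = |(w.im - y) + y| := by congr 1; ring
      _ ≤ |w.im - y| + |y| := abs_add_le _ _
      _ ≤ R + 1 := by linarith
  obtain ⟨g3, g4⟩ := g2 w hw1
  have hκ := H.κ0
  have hb := hbig (ℓ a) c2
  have hlen : (0 : ℝ) ≤ l.length := Nat.cast_nonneg _
  have hK1 := abs_nonneg K1
  have hK1' := le_abs_self K1
  refine ⟨(g1.2 w hw1).1, ?_, ?_⟩
  · have k1 := h2 a w (by linarith) (by linarith) hwim
    have k2 := h3 a w (by linarith)
    have k3 : (2 * ℓ a) ^ l.length = Real.exp (l.length * Real.log (2 * ℓ a)) := by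
      rw [← Real.exp_log (show 0 < 2 * ℓ a by linarith), ← Real.exp_nat_mul, Real.log_exp]
    calc ‖TT l (hh (f a)) w‖ ≤ (2 * ℓ a) ^ l.length * ‖hh (f a) w‖ := g4
      _ ≤ Real.exp (l.length * Real.log (2 * ℓ a)) *
          (Real.exp ((w.re - 1 / 2) * ℓ a + K2) * Real.exp K3) := by
          rw [k3]
          gcongr
          exact k1.trans (by gcongr)
      _ = Real.exp (l.length * Real.log (2 * ℓ a) + ((w.re - 1 / 2) * ℓ a + K2 + K3)) := by
          rw [← Real.exp_add, ← Real.exp_add]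
      _ ≤ _ := Real.exp_le_exp.2 (by linarith)
  · have k1 := (h4 w hw2).2.2
    have k2 : 1 ≤ (ℓ a / 2) ^ l.length := one_le_pow₀ (by linarith)
    calc Real.exp ((w.re - 1 / 2) * ℓ a + (-(η * ℓ a))) ≤ Real.exp ((w.re - 1 / 2) * ℓ a - K1) :=
          Real.exp_le_exp.2 (by linarith)
      _ ≤ ‖hh (f a) w‖ := k1
      _ ≤ (ℓ a / 2) ^ l.length * ‖hh (f a) w‖ := le_mul_of_one_le_left (norm_nonneg _) k2
      _ ≤ _ := g3

end Pool.Agent.N799.GL
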