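import Pool.Agent.N799.GL.Gam
import Pool.Agent.N799.GL.Fam

/-!
# The reflected function in terms of the local conductor
-/

set_option autoImplicit false

open Complex Filter Topology Set

namespace Pool.Agent.N799.GL

open H855R2.SF Pool.Agent.W188.GLR

theorem norm_gr_ratio (v : ℂ) (x : ℝ) : ‖Gammaℝ v‖ * ‖(Gammaℝ (v - 2 * x))⁻¹‖ =
    Real.pi ^ (-x) * (‖Gamma (v / 2)‖ * ‖Gamma (v / 2 - x)‖⁻¹) := by
  have hpi := Real.pi_pos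
  rw [Gammaℝ_def, Gammaℝ_def, norm_mul, norm_inv, norm_mul,
    Complex.norm_cpow_eq_rpow_re_of_pos hpi, Complex.norm_cpow_eq_rpow_re_of_pos hpi]
  have e1 : (v - 2 * (x:ℂ)) / 2 = v / 2 - x := by ring
  have e2 : (-v / 2).re = -x + (-(v - 2 * (x:ℂ)) / 2).re := by
    simp; ring
  rw [e1, e2, Real.rpow_add hpi, mul_inv]
  have hne : Real.pi ^ (-(v - 2 * (x:ℂ)) / 2).re ≠ 0 := (Real.rpow_pos_of_pos hpi _).ne'
  field_simp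

theorem dist_T {w : ℂ} {T R x1 : ℝ} (h0 : 1 / 2 ≤ w.re) (h1 : w.re ≤ 1 / 2 + x1)
    (h2 : |w.im - T| ≤ R) : ‖w - T * I‖ ≤ 1 / 2 + x1 + R := by
  refine (norm_le_abs_re_add_abs_im _).trans ?_
  simp only [sub_re, mul_re, ofReal_re, I_re, mul_zero, ofReal_im, I_im, mul_one, sub_self, sub_zero,
    sub_im, mul_im, add_zero]
  rw [abs_of_nonneg (by linarith)]
  linarith

/-- one factor, upper bound -/
theorem fac1_up {δ : ℝ} (hδ : 0 < δ) (R x1 : ℝ) (hR : 0 ≤ R) (hx1 : 0 ≤ x1) :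
    ∃ K : ℝ, ∀ (μ w : ℂ) (T : ℝ), μ.re ≤ 1 / 2 - δ → 1 / 2 ≤ w.re → w.re ≤ 1 / 2 + x1 →
      |w.im - T| ≤ R →
      ‖Gammaℝ (w - μ)‖ * ‖(Gammaℝ (w - μ - 2 * ((w.re - 1 / 2 : ℝ) : ℂ)))⁻¹‖ ≤
        Real.exp ((w.re - 1 / 2) * Real.log (1 + ‖μ - T * I‖) + K) := by
  obtain ⟨C, hC, h⟩ := fac_up (a := δ / 2) (x1 := x1) (by positivity) hx1
  set D : ℝ := 1 / 2 + x1 + R with hD
  refine ⟨Real.log (C * (1 + D) ^ x1), fun μ w T hμ h0 h1 h2 => ?_⟩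
  have hx0 : 0 ≤ w.re - 1 / 2 := by linarith
  rw [norm_gr_ratio]
  have h3 := h ((w - μ) / 2) (w.re - 1 / 2) (by simp; linarith) hx0 (by linarith)
  have hpx : Real.pi ^ (-(w.re - 1 / 2)) ≤ 1 :=
    Real.rpow_le_one_of_one_le_of_nonpos (by linarith [Real.pi_gt_three]) (by linarith)
  have hq : 0 < 1 + ‖μ - T * I‖ := by positivity
  have h4 : 1 + ‖(w - μ) / 2‖ ≤ (1 + D) * (1 + ‖μ - T * I‖) := by
    have h5 : ‖w - μ‖ ≤ D + ‖μ - T * I‖ := by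
      have e : w - μ = (w - T * I) - (μ - T * I) := by ring
      rw [e]
      refine (norm_sub_le _ _).trans ?_
      linarith [dist_T h0 h1 h2]
    have h6 : ‖(w - μ) / 2‖ = ‖w - μ‖ / 2 := by rw [norm_div]; simp
    rw [h6]
    have h7 := norm_nonneg (w - μ)
    have h8 := norm_nonneg (μ - T * I)
    nlinarith
  have hD0 : 0 < 1 + D := by positivity
  have h5 : (1 + ‖(w - μ) / 2‖) ^ (w.re - 1 / 2) ≤
      (1 + D) ^ x1 * (1 + ‖μ - T * I‖) ^ (w.re - 1 / 2) := by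
    calc (1 + ‖(w - μ) / 2‖) ^ (w.re - 1 / 2) ≤ ((1 + D) * (1 + ‖μ - T * I‖)) ^ (w.re - 1 / 2) :=
          Real.rpow_le_rpow (by positivity) h4 hx0
      _ = (1 + D) ^ (w.re - 1 / 2) * (1 + ‖μ - T * I‖) ^ (w.re - 1 / 2) :=
          Real.mul_rpow hD0.le hq.le
      _ ≤ _ := by
        gcongr
        · linarith
        · linarith
  have hnn : 0 ≤ ‖Gamma ((w - μ) / 2)‖ * ‖Gamma ((w - μ) / 2 - ((w.re - 1 / 2 : ℝ) : ℂ))‖⁻¹ := by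
    positivity
  calc Real.pi ^ (-(w.re - 1 / 2)) *
        (‖Gamma ((w - μ) / 2)‖ * ‖Gamma ((w - μ) / 2 - ((w.re - 1 / 2 : ℝ) : ℂ))‖⁻¹)
      ≤ 1 * (‖Gamma ((w - μ) / 2)‖ * ‖Gamma ((w - μ) / 2 - ((w.re - 1 / 2 : ℝ) : ℂ))‖⁻¹) :=
        mul_le_mul_of_nonneg_right hpx hnn
    _ ≤ C * ((1 + D) ^ x1 * (1 + ‖μ - T * I‖) ^ (w.re - 1 / 2)) := by
      rw [one_mul]
      refine h3.trans ?_
      gcongr
    _ = (C * (1 + D) ^ x1) * (1 + ‖μ - T * I‖) ^ (w.re - 1 / 2) := by ring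
    _ = _ := by
      rw [Real.exp_add, Real.exp_log (by positivity), Real.rpow_def_of_pos hq, mul_comm,
        mul_comm (Real.log _)]

/-- one factor, lower bound -/
theorem fac1_low {ρ : ℝ} (hρ : 0 < ρ) (R x1 : ℝ) (hR : 0 ≤ R) (hx1 : 0 ≤ x1) :
    ∃ K : ℝ, ∀ (μ w : ℂ) (T : ℝ), μ.re < 1 / 2 → 1 / 2 ≤ w.re → w.re ≤ 1 / 2 + x1 →
      |w.im - T| ≤ R → (∀ i : ℕ, ρ ≤ ‖(w - μ) / 2 - ((w.re - 1 / 2 : ℝ) : ℂ) + i‖) →
      Real.exp ((w.re - 1 / 2) * Real.log (1 + ‖μ - T * I‖) - K) ≤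
        ‖Gammaℝ (w - μ)‖ * ‖(Gammaℝ (w - μ - 2 * ((w.re - 1 / 2 : ℝ) : ℂ)))⁻¹‖ := by
  obtain ⟨c, hc, hc1, h⟩ := fac_low (ρ := ρ) (x1 := x1) hρ hx1
  set D : ℝ := 1 / 2 + x1 + R with hD
  have hD0 : 0 < 1 + D := by positivity
  have hpi := Real.pi_pos
  refine ⟨Real.log (Real.pi ^ x1 * (2 * (1 + D)) ^ x1 / c), fun μ w T hμ h0 h1 h2 hpole => ?_⟩
  have hx0 : 0 ≤ w.re - 1 / 2 := by linarith
  rw [norm_gr_ratio]
  have h3 := h ((w - μ) / 2) (w.re - 1 / 2) (by simp; linarith) hx0 (by linarith) hpole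
  have hq : 0 < 1 + ‖μ - T * I‖ := by positivity
  have h4 : 1 + ‖μ - T * I‖ ≤ 2 * (1 + D) * (1 + ‖(w - μ) / 2‖) := by
    have h5 : ‖μ - T * I‖ ≤ D + ‖w - μ‖ := by
      have e : μ - T * I = (w - T * I) - (w - μ) := by ring
      rw [e]
      refine (norm_sub_le _ _).trans ?_
      linarith [dist_T h0 h1 h2]
    have h6 : ‖(w - μ) / 2‖ = ‖w - μ‖ / 2 := by rw [norm_div]; simp
    rw [h6]
    have h7 := norm_nonneg (w - μ)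
    nlinarith
  have h5 : (1 + ‖μ - T * I‖) ^ (w.re - 1 / 2) ≤
      (2 * (1 + D)) ^ x1 * (1 + ‖(w - μ) / 2‖) ^ (w.re - 1 / 2) := by
    calc (1 + ‖μ - T * I‖) ^ (w.re - 1 / 2) ≤
          (2 * (1 + D) * (1 + ‖(w - μ) / 2‖)) ^ (w.re - 1 / 2) :=
          Real.rpow_le_rpow (by positivity) h4 hx0
      _ = (2 * (1 + D)) ^ (w.re - 1 / 2) * (1 + ‖(w - μ) / 2‖) ^ (w.re - 1 / 2) :=
          Real.mul_rpow (by positivity) (by positivity)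
      _ ≤ _ := by
        gcongr
        · linarith
        · linarith
  have hpx : (Real.pi ^ x1)⁻¹ ≤ Real.pi ^ (-(w.re - 1 / 2)) := by
    rw [Real.rpow_neg hpi.le]
    gcongr
    · linarith [Real.pi_gt_three]
    · linarith
  have hnn : 0 ≤ ‖Gamma ((w - μ) / 2)‖ * ‖Gamma ((w - μ) / 2 - ((w.re - 1 / 2 : ℝ) : ℂ))‖⁻¹ := by
    positivity
  have hP : 0 < Real.pi ^ x1 := by positivity
  have hP2 : 0 < (2 * (1 + D)) ^ x1 := by positivity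
  calc Real.exp ((w.re - 1 / 2) * Real.log (1 + ‖μ - T * I‖) -
        Real.log (Real.pi ^ x1 * (2 * (1 + D)) ^ x1 / c))
      = (1 + ‖μ - T * I‖) ^ (w.re - 1 / 2) / (Real.pi ^ x1 * (2 * (1 + D)) ^ x1 / c) := by
        rw [Real.exp_sub, Real.exp_log (by positivity), Real.rpow_def_of_pos hq,
          mul_comm (Real.log _)]
    _ ≤ ((2 * (1 + D)) ^ x1 * (1 + ‖(w - μ) / 2‖) ^ (w.re - 1 / 2)) /
        (Real.pi ^ x1 * (2 * (1 + D)) ^ x1 / c) := by gcongr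
    _ = (Real.pi ^ x1)⁻¹ * (c * (1 + ‖(w - μ) / 2‖) ^ (w.re - 1 / 2)) := by
        field_simp
    _ ≤ (Real.pi ^ x1)⁻¹ *
        (‖Gamma ((w - μ) / 2)‖ * ‖Gamma ((w - μ) / 2 - ((w.re - 1 / 2 : ℝ) : ℂ))‖⁻¹) := by gcongr
    _ ≤ _ := mul_le_mul_of_nonneg_right hpx hnn

variable {m : ℕ}

/-- the functional equation for the reflected function -/
theorem norm_hh {N : ℕ} (hN : 0 < N) {mu : Fin m → ℂ} (hmu : ∀ j, (mu j).re < 1 / 2) {root : ℂ}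
    (hroot : ‖root‖ = 1) {f : ℂ → ℂ}
    (hfe : ∀ s : ℂ, f s * ∏ j, (Gammaℝ (1 - s - (starRingEnd ℂ) (mu j)))⁻¹ =
      root * (N : ℂ) ^ (1 / 2 - s) * (starRingEnd ℂ) (f (1 - (starRingEnd ℂ) s)) *
        ∏ j, (Gammaℝ (s - mu j))⁻¹) {w : ℂ} (hw : 1 / 2 ≤ w.re) :
    ‖hh f w‖ = (N : ℝ) ^ (w.re - 1 / 2) * ‖f w‖ *
      ∏ j, (‖Gammaℝ (w - mu j)‖ * ‖(Gammaℝ (w - mu j - 2 * ((w.re - 1 / 2 : ℝ) : ℂ)))⁻¹‖) := by
  have h := congrArg norm (hfe w)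
  have e0 : (starRingEnd ℂ) (f (1 - (starRingEnd ℂ) w)) = hh f w := rfl
  rw [e0, norm_mul, norm_mul, norm_mul, norm_mul root, hroot, one_mul, norm_prod, norm_prod,
    Complex.norm_natCast_cpow_of_pos hN] at h
  have e1 : (1 / 2 - w).re = -(w.re - 1 / 2) := by simp
  have hNr : (0 : ℝ) < N := by exact_mod_cast hN
  rw [e1, Real.rpow_neg hNr.le] at h
  have e2 : ∀ j, ‖(Gammaℝ (1 - w - (starRingEnd ℂ) (mu j)))⁻¹‖ =
      ‖(Gammaℝ (w - mu j - 2 * ((w.re - 1 / 2 : ℝ) : ℂ)))⁻¹‖ := by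
    intro j
    have e3 : 1 - w - (starRingEnd ℂ) (mu j) =
        (starRingEnd ℂ) (w - mu j - 2 * ((w.re - 1 / 2 : ℝ) : ℂ)) := by
      apply Complex.ext
      · simp; ring
      · simp
    rw [e3, norm_inv, norm_inv, norm_gr_conj]
  have hne : ∀ j, ‖Gammaℝ (w - mu j)‖ ≠ 0 := fun j =>
    norm_ne_zero_iff.2 (gr_ne (by simp; linarith [hmu j]))
  have e4 : ∏ j, ‖(Gammaℝ (w - mu j))⁻¹‖ = (∏ j, ‖Gammaℝ (w - mu j)‖)⁻¹ := by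
    rw [← Finset.prod_inv_distrib]
    exact Finset.prod_congr rfl fun j _ => norm_inv _
  have hP : ∏ j, ‖Gammaℝ (w - mu j)‖ ≠ 0 := Finset.prod_ne_zero_iff.2 fun j _ => hne j
  rw [e4, Finset.prod_congr rfl fun j _ => e2 j] at h
  rw [Finset.prod_mul_distrib]
  have hNx : (N : ℝ) ^ (w.re - 1 / 2) ≠ 0 := by positivity
  calc ‖hh f w‖ = (N : ℝ) ^ (w.re - 1 / 2) * (∏ j, ‖Gammaℝ (w - mu j)‖) *
        (((N : ℝ) ^ (w.re - 1 / 2))⁻¹ * ‖hh f w‖ * (∏ j, ‖Gammaℝ (w - mu j)‖)⁻¹) := by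
        field_simp
    _ = _ := by rw [← h]; ring

theorem prod_exp_up {x K : ℝ} {p q : Fin m → ℝ} (hp : ∀ j, 0 ≤ p j)
    (h : ∀ j, p j ≤ Real.exp (x * q j + K)) : ∏ j, p j ≤ Real.exp (x * ∑ j, q j + m * K) := by
  refine (Finset.prod_le_prod (fun j _ => hp j) fun j _ => h j).trans (le_of_eq ?_)
  rw [← Real.exp_sum, Finset.sum_add_distrib, ← Finset.mul_sum, Finset.sum_const, Finset.card_univ,
    Fintype.card_fin, nsmul_eq_mul]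

theorem prod_exp_low {x K : ℝ} {p q : Fin m → ℝ}
    (h : ∀ j, Real.exp (x * q j - K) ≤ p j) : Real.exp (x * ∑ j, q j - m * K) ≤ ∏ j, p j := by
  refine (le_of_eq ?_).trans (Finset.prod_le_prod (fun j _ => (Real.exp_pos _).le) fun j _ => h j)
  rw [← Real.exp_sum, Finset.sum_sub_distrib, ← Finset.mul_sum, Finset.sum_const, Finset.card_univ,
    Fintype.card_fin, nsmul_eq_mul]

/-- upper bound of the reflected function -/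
theorem hh_up (m : ℕ) {δ : ℝ} (hδ : 0 < δ) (R x1 : ℝ) (hR : 0 ≤ R) (hx1 : 0 ≤ x1) :
    ∃ K : ℝ, ∀ (N : ℕ) (mu : Fin m → ℂ) (root : ℂ) (f : ℂ → ℂ) (T : ℝ) (w : ℂ), 0 < N →
      (∀ j, (mu j).re ≤ 1 / 2 - δ) → ‖root‖ = 1 →
      (∀ s : ℂ, f s * ∏ j, (Gammaℝ (1 - s - (starRingEnd ℂ) (mu j)))⁻¹ =
        root * (N : ℂ) ^ (1 / 2 - s) * (starRingEnd ℂ) (f (1 - (starRingEnd ℂ) s)) *
          ∏ j, (Gammaℝ (s - mu j))⁻¹) →
      1 / 2 ≤ w.re → w.re ≤ 1 / 2 + x1 → |w.im - T| ≤ R →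
      ‖hh f w‖ ≤ Real.exp ((w.re - 1 / 2) * Real.log (QL N mu T) + K) * ‖f w‖ := by
  obtain ⟨K, hK⟩ := fac1_up hδ R x1 hR hx1
  refine ⟨m * K, fun N mu root f T w hN hmu hroot hfe h0 h1 h2 => ?_⟩
  rw [norm_hh hN (fun j => by linarith [hmu j]) hroot hfe h0, log_QL hN]
  have hNr : (0 : ℝ) < N := by exact_mod_cast hN
  have h3 := prod_exp_up (x := w.re - 1 / 2) (K := K)
    (p := fun j => ‖Gammaℝ (w - mu j)‖ * ‖(Gammaℝ (w - mu j - 2 * ((w.re - 1 / 2 : ℝ) : ℂ)))⁻¹‖)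
    (q := fun j => Real.log (1 + ‖mu j - T * I‖)) (fun j => by positivity)
    (fun j => hK (mu j) w T (hmu j) h0 h1 h2)
  calc (N : ℝ) ^ (w.re - 1 / 2) * ‖f w‖ *
        ∏ j, (‖Gammaℝ (w - mu j)‖ * ‖(Gammaℝ (w - mu j - 2 * ((w.re - 1 / 2 : ℝ) : ℂ)))⁻¹‖)
      ≤ (N : ℝ) ^ (w.re - 1 / 2) * ‖f w‖ *
        Real.exp ((w.re - 1 / 2) * ∑ j, Real.log (1 + ‖mu j - T * I‖) + m * K) := by gcongr
    _ = Real.exp ((w.re - 1 / 2) * Real.log N) *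
        Real.exp ((w.re - 1 / 2) * ∑ j, Real.log (1 + ‖mu j - T * I‖) + m * K) * ‖f w‖ := by
        rw [Real.rpow_def_of_pos hNr, mul_comm (Real.log _)]; ring
    _ = _ := by
        rw [← Real.exp_add]
        congr 2
        ring

/-- lower bound of the reflected function -/
theorem hh_low (m : ℕ) {ρ : ℝ} (hρ : 0 < ρ) (R x1 : ℝ) (hR : 0 ≤ R) (hx1 : 0 ≤ x1) :
    ∃ K : ℝ, ∀ (N : ℕ) (mu : Fin m → ℂ) (root : ℂ) (f : ℂ → ℂ) (T : ℝ) (w : ℂ), 0 < N →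
      (∀ j, (mu j).re < 1 / 2) → ‖root‖ = 1 →
      (∀ s : ℂ, f s * ∏ j, (Gammaℝ (1 - s - (starRingEnd ℂ) (mu j)))⁻¹ =
        root * (N : ℂ) ^ (1 / 2 - s) * (starRingEnd ℂ) (f (1 - (starRingEnd ℂ) s)) *
          ∏ j, (Gammaℝ (s - mu j))⁻¹) →
      1 / 2 ≤ w.re → w.re ≤ 1 / 2 + x1 → |w.im - T| ≤ R →
      (∀ j, ∀ i : ℕ, ρ ≤ ‖(w - mu j) / 2 - ((w.re - 1 / 2 : ℝ) : ℂ) + i‖) →
      Real.exp ((w.re - 1 / 2) * Real.log (QL N mu T) - K) * ‖f w‖ ≤ ‖hh f w‖ := by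
  obtain ⟨K, hK⟩ := fac1_low hρ R x1 hR hx1
  refine ⟨m * K, fun N mu root f T w hN hmu hroot hfe h0 h1 h2 hpole => ?_⟩
  rw [norm_hh hN hmu hroot hfe h0, log_QL hN]
  have hNr : (0 : ℝ) < N := by exact_mod_cast hN
  have h3 := prod_exp_low (x := w.re - 1 / 2) (K := K)
    (p := fun j => ‖Gammaℝ (w - mu j)‖ * ‖(Gammaℝ (w - mu j - 2 * ((w.re - 1 / 2 : ℝ) : ℂ)))⁻¹‖)
    (q := fun j => Real.log (1 + ‖mu j - T * I‖))
    (fun j => hK (mu j) w T (hmu j) h0 h1 h2 (hpole j))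
  refine le_trans (le_of_eq ?_) (mul_le_mul_of_nonneg_left h3
    (show 0 ≤ (N : ℝ) ^ (w.re - 1 / 2) * ‖f w‖ by positivity))
  rw [Real.rpow_def_of_pos hNr, mul_comm (Real.log _), mul_assoc (Real.exp _), mul_comm ‖f w‖,
    ← mul_assoc, ← Real.exp_add]
  congr 2
  ring

end Pool.Agent.N799.GL
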