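import Mathlib
import Pool.Agent.W188.GLR.G8

/-!
# The gamma factors in a half plane
-/

set_option autoImplicit false

open Complex Filter Topology Set

namespace Pool.Agent.N799.GL

open H855R2.SF Pool.Agent.W188.GLR

/-- upper bound for quotients of Gamma functions -/
theorem gamA {z : ℂ} {y : ℝ} (hz : 0 < z.re) (hy0 : 0 ≤ y) (hy1 : y ≤ 1) :
    ‖Gamma (z + y)‖ ≤ 2 * (1 + ‖z‖) ^ y * ‖Gamma z‖ := by
  have hz0 : z ≠ 0 := by intro h; rw [h] at hz; simp at hz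
  have hzy0 : z + y ≠ 0 := by
    intro h
    have := congrArg re h
    simp at this
    linarith
  have h1 := gamma_quot (z := z + 1) hy0 hy1 (by simp; linarith)
  have e1 : Gamma (z + 1) = z * Gamma z := Gamma_add_one z hz0
  have e2 : Gamma (z + 1 + y) = (z + y) * Gamma (z + y) := by
    rw [← Gamma_add_one _ hzy0]
    congr 1
    ring
  rw [e1, e2, norm_mul, norm_mul] at h1
  have h2 : ‖z‖ ≤ ‖z + y‖ := by
    apply le_of_sq_le_sq _ (norm_nonneg _)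
    rw [norm_add_sq]
    nlinarith [mul_nonneg hy0 hz.le, sq_nonneg y]
  have h3 : 0 < ‖z + y‖ := norm_pos_iff.2 hzy0
  have h4 : ‖z + 1‖ ^ y ≤ (1 + ‖z‖) ^ y := by
    apply Real.rpow_le_rpow (norm_nonneg _) _ hy0
    refine (norm_add_le _ _).trans ?_
    rw [norm_one, add_comm]
  have h5 : ‖z + y‖ * ‖Gamma (z + y)‖ ≤ ‖z + y‖ * (2 * (1 + ‖z‖) ^ y * ‖Gamma z‖) := by
    calc ‖z + y‖ * ‖Gamma (z + y)‖ ≤ 2 * ‖z + 1‖ ^ y * (‖z‖ * ‖Gamma z‖) := h1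
      _ ≤ 2 * (1 + ‖z‖) ^ y * (‖z + y‖ * ‖Gamma z‖) := by gcongr
      _ = _ := by ring
  exact le_of_mul_le_mul_left h5 h3

/-- lower bound for quotients of Gamma functions -/
theorem gamB {z : ℂ} {y a : ℝ} (ha : 0 < a) (hz : a ≤ z.re) (hy0 : 0 ≤ y) (hy1 : y ≤ 1) :
    (1 + ‖z‖) ^ y * ‖Gamma z‖ ≤ 4 * ((1 + a) / a) * ‖Gamma (z + y)‖ := by
  have hz0 : z ≠ 0 := by intro h; rw [h] at hz; simp at hz; linarith
  have h1 := gamA (z := z + y) (y := 1 - y) (by simp; linarith) (by linarith) (by linarith)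
  have e0 : z + y + ((1 - y : ℝ) : ℂ) = z + 1 := by push_cast; ring
  rw [e0, Gamma_add_one z hz0, norm_mul] at h1
  have hn : 0 < 1 + ‖z‖ := by positivity
  have h2 : (1 + ‖z + y‖) ^ (1 - y) ≤ 2 * (1 + ‖z‖) ^ (1 - y) := by
    have h3 : 1 + ‖z + y‖ ≤ 2 * (1 + ‖z‖) := by
      have := norm_add_le z y
      rw [Complex.norm_real, Real.norm_of_nonneg hy0] at this
      linarith [norm_nonneg z]
    calc (1 + ‖z + y‖) ^ (1 - y) ≤ (2 * (1 + ‖z‖)) ^ (1 - y) :=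
          Real.rpow_le_rpow (by positivity) h3 (by linarith)
      _ = 2 ^ (1 - y) * (1 + ‖z‖) ^ (1 - y) := Real.mul_rpow (by norm_num) hn.le
      _ ≤ 2 ^ (1 : ℝ) * (1 + ‖z‖) ^ (1 - y) := by
        gcongr
        · norm_num
        · linarith
      _ = _ := by norm_num
  have h3 : 1 + ‖z‖ ≤ (1 + a) / a * ‖z‖ := by
    have h4 : a ≤ ‖z‖ := hz.trans (re_le_norm z)
    rw [div_mul_eq_mul_div, le_div_iff₀ ha]
    nlinarith
  have h4 : (1 + ‖z‖) ^ y * (1 + ‖z‖) ^ (1 - y) = 1 + ‖z‖ := by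
    rw [← Real.rpow_add hn, add_sub_cancel, Real.rpow_one]
  have hp : 0 < (1 + ‖z‖) ^ (1 - y) := by positivity
  have h5 : (1 + ‖z‖) ^ (1 - y) * ((1 + ‖z‖) ^ y * ‖Gamma z‖) ≤
      (1 + ‖z‖) ^ (1 - y) * (4 * ((1 + a) / a) * ‖Gamma (z + y)‖) := by
    calc (1 + ‖z‖) ^ (1 - y) * ((1 + ‖z‖) ^ y * ‖Gamma z‖) = (1 + ‖z‖) * ‖Gamma z‖ := by
          rw [← mul_assoc, mul_comm ((1 + ‖z‖) ^ (1 - y)), h4]
      _ ≤ ((1 + a) / a * ‖z‖) * ‖Gamma z‖ := by gcongr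
      _ = (1 + a) / a * (‖z‖ * ‖Gamma z‖) := by ring
      _ ≤ (1 + a) / a * (2 * (1 + ‖z + y‖) ^ (1 - y) * ‖Gamma (z + y)‖) := by gcongr
      _ ≤ (1 + a) / a * (2 * (2 * (1 + ‖z‖) ^ (1 - y)) * ‖Gamma (z + y)‖) := by gcongr
      _ = _ := by ring
  exact le_of_mul_le_mul_left h5 hp

/-- the recurrence -/
theorem gam_rec {u : ℂ} (hu : ∀ i : ℕ, u + i ≠ 0) (k : ℕ) :
    Gamma (u + k) = (∏ i ∈ Finset.range k, (u + i)) * Gamma u := by
  induction k with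
  | zero => simp
  | succ n ih =>
    rw [Finset.prod_range_succ, mul_right_comm, ← ih]
    push_cast
    rw [← add_assoc, Gamma_add_one _ (hu n)]
    ring

theorem gam_ne {u : ℂ} (hu : ∀ i : ℕ, u + i ≠ 0) : Gamma u ≠ 0 := by
  apply Gamma_ne_zero
  intro n h
  apply hu n
  rw [h]; ring

theorem not_pole {u : ℂ} (h : Gamma u ≠ 0) : ∀ i : ℕ, u + i ≠ 0 := by
  intro i hi
  apply h
  have : u = -(i : ℂ) := eq_neg_of_add_eq_zero_left hi
  rw [this]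
  exact Gamma_neg_nat_eq_zero i

/-- upper bound of the factor -/
theorem fac_up {a x1 : ℝ} (ha : 0 < a) (hx1 : 0 ≤ x1) : ∃ C : ℝ, 1 ≤ C ∧ ∀ (z : ℂ) (x : ℝ),
    a ≤ z.re → 0 ≤ x → x ≤ x1 → ‖Gamma z‖ * ‖Gamma (z - x)‖⁻¹ ≤ C * (1 + ‖z‖) ^ x := by
  set k1 : ℕ := ⌈x1⌉₊ with hk1
  set D : ℝ := x1 + k1 + 1 with hD
  have hD1 : 1 ≤ D := by
    have : (0 : ℝ) ≤ k1 := Nat.cast_nonneg _
    linarith
  have hCa : 1 ≤ 4 * ((1 + a) / a) := by
    have : 1 ≤ (1 + a) / a := by rw [one_le_div ha]; linarith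
    linarith
  refine ⟨4 * ((1 + a) / a) * D ^ k1, ?_, ?_⟩
  · have := one_le_pow₀ hD1 (n := k1)
    nlinarith
  intro z x hz hx0 hx
  have hn : 0 < 1 + ‖z‖ := by positivity
  rcases eq_or_ne (Gamma (z - x)) 0 with h0 | h0
  · rw [h0, norm_zero, inv_zero, mul_zero]
    positivity
  have hu := not_pole h0
  set k : ℕ := ⌈x⌉₊ with hk
  have hkx : x ≤ k := Nat.le_ceil x
  have hkx2 : (k : ℝ) < x + 1 := Nat.ceil_lt_add_one hx0
  have hkk : k ≤ k1 := Nat.ceil_mono hx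
  have hrec := gam_rec hu k
  have e1 : z - x + k = z + ((k - x : ℝ) : ℂ) := by push_cast; ring
  rw [e1] at hrec
  have hB := gamB ha hz (y := k - x) (by linarith) (by linarith)
  rw [hrec, norm_mul, norm_prod] at hB
  have hg : 0 < ‖Gamma (z - x)‖ := norm_pos_iff.2 h0
  have hprod : ∏ i ∈ Finset.range k, ‖z - x + i‖ ≤ D ^ k1 * (1 + ‖z‖) ^ k := by
    have h1 : ∏ i ∈ Finset.range k, ‖z - x + i‖ ≤ ∏ _i ∈ Finset.range k, (D * (1 + ‖z‖)) := by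
      apply Finset.prod_le_prod (fun _ _ => norm_nonneg _)
      intro i hi
      have hi' : (i : ℝ) ≤ k1 := by
        have := Finset.mem_range.1 hi
        exact_mod_cast (this.le.trans hkk)
      have h2 : ‖z - x + i‖ ≤ ‖z‖ + x + i := by
        calc ‖z - x + i‖ ≤ ‖z - x‖ + ‖(i : ℂ)‖ := norm_add_le _ _
          _ ≤ ‖z‖ + ‖(x : ℂ)‖ + ‖(i : ℂ)‖ := by gcongr; exact norm_sub_le _ _
          _ = _ := by rw [Complex.norm_real, Real.norm_of_nonneg hx0, Complex.norm_natCast]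
      have h3 := norm_nonneg z
      have h4 : (0 : ℝ) ≤ k1 := Nat.cast_nonneg _
      nlinarith
    rw [Finset.prod_const, Finset.card_range, mul_pow] at h1
    refine h1.trans ?_
    gcongr
  rw [← div_eq_mul_inv, div_le_iff₀ hg]
  have hp : 0 < (1 + ‖z‖) ^ ((k : ℝ) - x) := by positivity
  have h4 : (1 + ‖z‖) ^ ((k : ℝ) - x) * (1 + ‖z‖) ^ x = (1 + ‖z‖) ^ k := by
    rw [← Real.rpow_add hn, sub_add_cancel, Real.rpow_natCast]
  have h5 : (1 + ‖z‖) ^ ((k : ℝ) - x) * ‖Gamma z‖ ≤ (1 + ‖z‖) ^ ((k : ℝ) - x) *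
      (4 * ((1 + a) / a) * D ^ k1 * (1 + ‖z‖) ^ x * ‖Gamma (z - x)‖) := by
    refine hB.trans ?_
    calc 4 * ((1 + a) / a) * ((∏ i ∈ Finset.range k, ‖z - x + i‖) * ‖Gamma (z - x)‖)
        ≤ 4 * ((1 + a) / a) * ((D ^ k1 * (1 + ‖z‖) ^ k) * ‖Gamma (z - x)‖) := by gcongr
      _ = 4 * ((1 + a) / a) * D ^ k1 * ((1 + ‖z‖) ^ ((k : ℝ) - x) * (1 + ‖z‖) ^ x) *
          ‖Gamma (z - x)‖ := by rw [h4]; ring
      _ = _ := by ring
  exact le_of_mul_le_mul_left h5 hp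

/-- lower bound of the factor away from the poles -/
theorem fac_low {ρ x1 : ℝ} (hρ : 0 < ρ) (hx1 : 0 ≤ x1) : ∃ c : ℝ, 0 < c ∧ c ≤ 1 ∧
    ∀ (z : ℂ) (x : ℝ), 0 < z.re → 0 ≤ x → x ≤ x1 → (∀ i : ℕ, ρ ≤ ‖z - x + i‖) →
      c * (1 + ‖z‖) ^ x ≤ ‖Gamma z‖ * ‖Gamma (z - x)‖⁻¹ := by
  set k1 : ℕ := ⌈x1⌉₊ with hk1
  set D : ℝ := 2 * (x1 + k1 + 1) with hD
  have hk10 : (0 : ℝ) ≤ k1 := Nat.cast_nonneg _
  have hD1 : 2 ≤ D := by linarith
  set c : ℝ := min (1 / 4) (ρ / (1 + D)) with hc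
  have hc0 : 0 < c := by positivity
  have hc1 : c ≤ 1 / 4 := min_le_left _ _
  have hc2 : c ≤ ρ / (1 + D) := min_le_right _ _
  refine ⟨c ^ k1 / 2, by positivity, ?_, ?_⟩
  · have := pow_le_one₀ hc0.le (by linarith : c ≤ 1) (n := k1)
    linarith
  intro z x hz hx0 hx hpole
  have hn : 0 < 1 + ‖z‖ := by positivity
  have hu : ∀ i : ℕ, z - x + i ≠ 0 := by
    intro i h
    have := hpole i
    rw [h, norm_zero] at this
    linarith
  have h0 := gam_ne hu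
  set k : ℕ := ⌈x⌉₊ with hk
  have hkx : x ≤ k := Nat.le_ceil x
  have hkx2 : (k : ℝ) < x + 1 := Nat.ceil_lt_add_one hx0
  have hkk : k ≤ k1 := Nat.ceil_mono hx
  have hrec := gam_rec hu k
  have e1 : z - x + k = z + ((k - x : ℝ) : ℂ) := by push_cast; ring
  rw [e1] at hrec
  have hA := gamA hz (y := k - x) (by linarith) (by linarith)
  rw [hrec, norm_mul, norm_prod] at hA
  have hg : 0 < ‖Gamma (z - x)‖ := norm_pos_iff.2 h0
  have hprod : c ^ k1 * (1 + ‖z‖) ^ k ≤ ∏ i ∈ Finset.range k, ‖z - x + i‖ := by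
    have h1 : ∏ _i ∈ Finset.range k, (c * (1 + ‖z‖)) ≤ ∏ i ∈ Finset.range k, ‖z - x + i‖ := by
      apply Finset.prod_le_prod (fun _ _ => by positivity)
      intro i hi
      have hi' : (i : ℝ) ≤ k1 := by
        have := Finset.mem_range.1 hi
        exact_mod_cast (this.le.trans hkk)
      have hi0 : (0 : ℝ) ≤ i := Nat.cast_nonneg _
      rcases le_or_gt ‖z‖ D with h2 | h2
      · calc c * (1 + ‖z‖) ≤ ρ / (1 + D) * (1 + D) := by gcongr
          _ = ρ := by field_simp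
          _ ≤ _ := hpole i
      · have h3 : ‖z‖ - x - i ≤ ‖z - x + i‖ := by
          have h4 := norm_sub_le (z - x + i) ((i : ℂ) - x)
          have e : z - x + i - ((i : ℂ) - x) = z := by ring
          rw [e] at h4
          have h5 : ‖(i : ℂ) - x‖ ≤ i + x := by
            refine (norm_sub_le _ _).trans ?_
            rw [Complex.norm_real, Real.norm_of_nonneg hx0, Complex.norm_natCast]
          linarith
        have h6 : c * (1 + ‖z‖) ≤ 1 / 4 * (1 + ‖z‖) := by gcongr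
        linarith
    rw [Finset.prod_const, Finset.card_range, mul_pow] at h1
    refine le_trans ?_ h1
    have : c ^ k1 ≤ c ^ k := pow_le_pow_of_le_one hc0.le (by linarith) hkk
    gcongr
  rw [← div_eq_mul_inv, le_div_iff₀ hg]
  have hp : 0 < (1 + ‖z‖) ^ ((k : ℝ) - x) := by positivity
  have h4 : (1 + ‖z‖) ^ ((k : ℝ) - x) * (1 + ‖z‖) ^ x = (1 + ‖z‖) ^ k := by
    rw [← Real.rpow_add hn, sub_add_cancel, Real.rpow_natCast]
  have h5 : (1 + ‖z‖) ^ ((k : ℝ) - x) * (c ^ k1 / 2 * (1 + ‖z‖) ^ x * ‖Gamma (z - x)‖) ≤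
      (1 + ‖z‖) ^ ((k : ℝ) - x) * ‖Gamma z‖ := by
    calc (1 + ‖z‖) ^ ((k : ℝ) - x) * (c ^ k1 / 2 * (1 + ‖z‖) ^ x * ‖Gamma (z - x)‖)
        = (c ^ k1 * (1 + ‖z‖) ^ k) * ‖Gamma (z - x)‖ / 2 := by rw [← h4]; ring
      _ ≤ (∏ i ∈ Finset.range k, ‖z - x + i‖) * ‖Gamma (z - x)‖ / 2 := by gcongr
      _ ≤ (2 * (1 + ‖z‖) ^ ((k : ℝ) - x) * ‖Gamma z‖) / 2 := by gcongr
      _ = _ := by ring
  exact le_of_mul_le_mul_left h5 hp

/-- the digamma function away from the poles -/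
theorem psi_rec {u : ℂ} (hu : ∀ i : ℕ, u + i ≠ 0) (k : ℕ) :
    logDeriv Gamma (u + k) = logDeriv Gamma u + ∑ i ∈ Finset.range k, (u + i)⁻¹ := by
  induction k with
  | zero => simp
  | succ n ih =>
    rw [Finset.sum_range_succ, ← add_assoc, ← ih]
    have h := digamma_apply_add_one (u + n) (by
      intro m h
      apply hu (n + m)
      push_cast
      rw [← add_assoc, h]
      ring)
    rw [digamma_def] at h
    push_cast
    rw [← add_assoc]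
    exact h

theorem psi_bd {ρ : ℝ} (hρ : 0 < ρ) (k : ℕ) : ∃ K : ℝ, ∀ u : ℂ, (∀ i : ℕ, ρ ≤ ‖u + i‖) →
    1 ≤ (u + k).re → ‖logDeriv Gamma u - log (u + k + 2)‖ ≤ K := by
  refine ⟨2 / 1 + (∑' n : ℕ, 1 / ((n : ℝ) + 1) ^ 2) + k * (1 / ρ), fun u hpole hre => ?_⟩
  have hu : ∀ i : ℕ, u + i ≠ 0 := by
    intro i h
    have := hpole i
    rw [h, norm_zero] at this
    linarith
  have h1 := psi_close (z := u + k) one_pos hre
  rw [psi_rec hu k] at h1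
  have h2 : ‖∑ i ∈ Finset.range k, (u + i)⁻¹‖ ≤ k * (1 / ρ) := by
    refine (norm_sum_le _ _).trans ?_
    have h3 : ∑ i ∈ Finset.range k, ‖(u + (i : ℂ))⁻¹‖ ≤ ∑ _i ∈ Finset.range k, 1 / ρ := by
      apply Finset.sum_le_sum
      intro i _
      rw [norm_inv, ← one_div]
      exact one_div_le_one_div_of_le hρ (hpole i)
    rw [Finset.sum_const, Finset.card_range, nsmul_eq_mul] at h3
    exact h3
  have e : logDeriv Gamma u - log (u + k + 2) =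
      (logDeriv Gamma u + ∑ i ∈ Finset.range k, (u + i)⁻¹ - log (u + k + 2)) -
        ∑ i ∈ Finset.range k, (u + (i : ℂ))⁻¹ := by ring
  rw [e]
  refine (norm_sub_le _ _).trans ?_
  linarith

/-- the derivative of `Γ_ℝ` away from the poles -/
theorem gr_deriv {w : ℂ} (hw : ∀ i : ℕ, w / 2 + i ≠ 0) :
    Gammaℝ w ≠ 0 ∧ HasDerivAt Gammaℝ (Gammaℝ w * Lam w) w := by
  have hne : ∀ n : ℕ, w / 2 ≠ -n := by
    intro n h
    apply hw n
    rw [h]; ring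
  have hGn : Gamma (w / 2) ≠ 0 := Gamma_ne_zero hne
  have hpi : (Real.pi : ℂ) ≠ 0 := by exact_mod_cast Real.pi_ne_zero
  have hG := (differentiableAt_Gamma (w / 2) hne).hasDerivAt
  have h1 : HasDerivAt (fun z : ℂ => Gamma (z / 2)) (deriv Gamma (w / 2) * (1 / 2)) w := by
    have h2 : HasDerivAt (fun z : ℂ => z / 2) (1 / 2) w := (hasDerivAt_id w).div_const 2
    exact hG.comp w h2
  have h3 : HasDerivAt (fun z : ℂ => (Real.pi : ℂ) ^ (-z / 2))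
      ((Real.pi : ℂ) ^ (-w / 2) * Complex.log Real.pi * (-1 / 2)) w := by
    have h4 : HasDerivAt (fun z : ℂ => -z / 2) (-1 / 2) w := (hasDerivAt_id w).neg.div_const 2
    exact h4.const_cpow (Or.inl hpi)
  have h5 := h3.mul h1
  have e1 : (fun z : ℂ => (Real.pi : ℂ) ^ (-z / 2)) * (fun z : ℂ => Gamma (z / 2)) = Gammaℝ := by
    funext z
    simp only [Pi.mul_apply]
    rw [Gammaℝ_def]
  rw [e1] at h5
  refine ⟨?_, h5.congr_deriv ?_⟩
  · rw [Gammaℝ_def]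
    refine mul_ne_zero ?_ hGn
    rw [Complex.cpow_def_of_ne_zero hpi]
    exact Complex.exp_ne_zero _
  · unfold Lam
    rw [logDeriv_apply, Gammaℝ_def, ofReal_log Real.pi_pos.le]
    field_simp

end Pool.Agent.N799.GL
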