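import Pool.Agent.N799.GL.Count

/-!
# The gain and the iteration; the converse
-/

set_option autoImplicit false

open Complex Metric Set Filter Topology

namespace Pool.Agent.N799.GL

open Pool.Agent.N799.SP Pool.Agent.N799.LH

variable {α : Type*} {f : α → ℂ → ℂ} {ℓ : α → ℝ} {κ δ g : ℝ} {M : ℕ}

theorem im_near {z w : ℂ} {r R : ℝ} (h : |z.im - w.im| ≤ r) (hw : |w.im| ≤ R) : |z.im| ≤ R + r := by
  calc |z.im| = |(z.im - w.im) + w.im| := by congr 1; ring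
    _ ≤ |z.im - w.im| + |w.im| := abs_add_le _ _
    _ ≤ R + r := by linarith

/-- the gain -/
theorem gain (H : Fam f ℓ κ δ g M) (l : List ℂ) (R B ε : ℝ) (hB : κ - 1 < B)
    (hε : 0 < ε) (hε1 : ε ≤ 1 / 4) : ∃ η A L : ℝ, 0 < η ∧ ∀ a, L ≤ ℓ a →
    ZL (TT l (hh (f a))) {w | 1 / 2 + η ≤ w.re ∧ w.re ≤ 1 + B ∧ |w.im| ≤ A} (η * ℓ a) →
    ∀ μ : ℝ, 0 ≤ μ → (∀ w : ℂ, 1 / 2 ≤ w.re → |w.im| ≤ R + 1 → ‖f a w‖ ≤ Real.exp (μ * ℓ a)) →
    ∀ w : ℂ, |w.im| ≤ R → 1 / 2 + 2 * ε ≤ w.re → w.re ≤ 1 / 2 + δ →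
      ‖f a w‖ ≤ Real.exp (max (3 * ε) (μ + 3 * ε - (w.re - 1 / 2)) * ℓ a) := by
  have hκ := H.κ0
  have hδ1 := H.δ1
  obtain ⟨η, A, L1, hη, hF⟩ := size H l (R + 1) B (ε / 2) hB (by positivity) (by linarith)
  obtain ⟨K1, hup⟩ := H.up (R + 1) 1
  obtain ⟨K2, hlow⟩ := H.low R
  obtain ⟨C1, hC1, hrec⟩ := recon l 4 (by norm_num) (ε / 2) (by positivity)
  refine ⟨η, A, max L1 ((Real.log C1 + |K1| + K2) / ε), hη, ?_⟩
  intro a ha hZ μ hμ hζ w hwy hw1 hw2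
  have c1 : L1 ≤ ℓ a := (le_max_left _ _).trans ha
  have c2 : Real.log C1 + |K1| + K2 ≤ ε * ℓ a := by
    have := (le_max_right _ _).trans ha
    rw [div_le_iff₀ hε] at this
    linarith
  have hℓ := H.ℓ0 a
  set Ω : Set ℂ := Rc (1 / 2 + ε) (w.re + ε) w.im ε with hΩ
  set c : ℂ := ⟨1 / 2 + 3 / 2 * ε, w.im⟩ with hc
  have hcre : c.re = 1 / 2 + 3 / 2 * ε := rfl
  have hcim : c.im = w.im := rfl
  have hΩm : ∀ z ∈ Ω, 1 / 2 + ε < z.re ∧ z.re < w.re + ε ∧ |z.im - w.im| < ε := fun z hz => hz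
  have hwm : w ∈ Ω := ⟨by linarith, by linarith, by simpa using hε⟩
  have hball : ball c (ε / 2) ⊆ Ω := by
    intro z hz
    obtain ⟨h1, h2⟩ := ball_coords hz
    rw [hcre] at h1
    rw [hcim] at h2
    have h1' := abs_lt.1 h1
    exact ⟨by linarith, by linarith, by linarith⟩
  set E : ℝ := max (w.re - 1 / 2 + 3 / 2 * ε) (2 * ε + μ) with hE
  have hE1 : w.re - 1 / 2 + 3 / 2 * ε ≤ E := le_max_left _ _
  have hE2 : 2 * ε + μ ≤ E := le_max_right _ _
  have hK1 := abs_nonneg K1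
  have hK1' := le_abs_self K1
  -- the bound for `F` on `Ω`
  have hFb : ∀ z ∈ Ω, ‖TT l (hh (f a)) z‖ ≤ Real.exp (E * ℓ a + |K1|) := by
    intro z hz
    obtain ⟨h1, h2, h3⟩ := hΩm z hz
    refine (hF a c1 hZ z (im_near (by linarith) hwy) (by linarith) (by linarith)).trans
      (Real.exp_le_exp.2 ?_)
    have h5 : (z.re - 1 / 2) * ℓ a ≤ (w.re - 1 / 2 + ε) * ℓ a := by gcongr; linarith
    have h6 : (w.re - 1 / 2 + 3 / 2 * ε) * ℓ a ≤ E * ℓ a := mul_le_mul_of_nonneg_right hE1 hℓ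
    linarith
  have hZb : ∀ z ∈ ball c (ε / 2), ‖hh (f a) z‖ ≤ Real.exp (E * ℓ a + |K1|) := by
    intro z hz
    obtain ⟨h1, h2⟩ := ball_coords hz
    rw [hcre] at h1
    rw [hcim] at h2
    have h1' := abs_lt.1 h1
    have h0 : |z.im| ≤ R + 1 := im_near (by linarith) hwy
    have h3 := hup a z (by linarith) (by linarith) h0
    have h4 := hζ z (by linarith) h0
    calc ‖hh (f a) z‖ ≤ Real.exp ((z.re - 1 / 2) * ℓ a + K1) * Real.exp (μ * ℓ a) :=
          h3.trans (by gcongr)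
      _ = Real.exp ((z.re - 1 / 2) * ℓ a + K1 + μ * ℓ a) := by rw [← Real.exp_add]
      _ ≤ _ := by
        apply Real.exp_le_exp.2
        have h5 : (z.re - 1 / 2) * ℓ a ≤ (2 * ε) * ℓ a := by gcongr; linarith
        have h6 : (2 * ε + μ) * ℓ a ≤ E * ℓ a := by gcongr
        linarith
  have h1 := hrec Ω (hh (f a)) c _ (Rc_open _ _ _ _) (Rc_convex _ _ _ _) (Real.exp_pos _).le
    (H.hd a).differentiableOn hball (fun z hz => by
      obtain ⟨h1, h2, h3⟩ := hΩm z hz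
      refine (Complex.norm_le_abs_re_add_abs_im _).trans ?_
      rw [sub_re, sub_im, hcre, hcim]
      have h4 : |z.re - (1 / 2 + 3 / 2 * ε)| ≤ 3 := by
        rw [abs_le]; constructor <;> linarith
      linarith) hFb hZb w hwm
  have h2 := hlow a w (by linarith) hw2 hwy
  have h3 := h2.trans h1
  have h4 : ‖f a w‖ ≤ C1 * Real.exp (E * ℓ a + |K1|) *
      Real.exp (-((w.re - 1 / 2) * ℓ a - K2)) := by
    rw [Real.exp_neg, ← div_eq_mul_inv, le_div_iff₀ (Real.exp_pos _)]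
    linarith
  refine h4.trans ?_
  have h5 : C1 = Real.exp (Real.log C1) := by rw [Real.exp_log (by linarith)]
  rw [h5, ← Real.exp_add, ← Real.exp_add]
  apply Real.exp_le_exp.2
  have h6 : E - (w.re - 1 / 2) + ε ≤ max (3 * ε) (μ + 3 * ε - (w.re - 1 / 2)) := by
    rcases le_total (w.re - 1 / 2 + 3 / 2 * ε) (2 * ε + μ) with h | h
    · have : E = 2 * ε + μ := max_eq_right h
      rw [this]
      exact le_trans (by linarith) (le_max_right _ _)
    · have : E = w.re - 1 / 2 + 3 / 2 * ε := max_eq_left h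
      rw [this]
      exact le_trans (by linarith) (le_max_left _ _)
  have h7 : (E - (w.re - 1 / 2) + ε) * ℓ a ≤ max (3 * ε) (μ + 3 * ε - (w.re - 1 / 2)) * ℓ a := by
    gcongr
  linarith

/-- a bound on a vertical line extends to the right -/
theorem to_right (H : Fam f ℓ κ δ g M) (ε R : ℝ) (hε : 0 < ε) : ∃ A L : ℝ, ∀ a, L ≤ ℓ a →
    ∀ σ E : ℝ, 1 / 2 ≤ σ → σ ≤ κ → 0 ≤ E →
    (∀ w : ℂ, w.re = σ → |w.im| ≤ A → ‖f a w‖ ≤ Real.exp (E * ℓ a)) →
      ∀ w : ℂ, σ ≤ w.re → |w.im| ≤ R → ‖f a w‖ ≤ Real.exp ((E + ε) * ℓ a) := by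
  have hκ := H.κ0
  have hg := H.g1
  set D : ℝ := κ + 1 with hD
  set k : ℝ := ε / 2 / D ^ 2 with hk
  have hD0 : 0 < D := by positivity
  have hk0 : 0 < k := by positivity
  have hkD : D ^ 2 * k = ε / 2 := by rw [hk, mul_div_cancel₀ _ (by positivity)]
  set h : ℝ := Real.sqrt ((g + 1 + D) / k) with hh'
  have hh0 : 0 < h := by positivity
  have hh2 : k * h ^ 2 = g + 1 + D := by
    rw [hh', Real.sq_sqrt (by positivity)]; field_simp
  obtain ⟨K1, h1⟩ := H.grow (R + h)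
  obtain ⟨K2, h2⟩ := H.right
  refine ⟨R + h, max (max 1 K1) (2 * K2 / ε), ?_⟩
  intro a ha σ E hσ hσ2 hE hb w hw1 hw2
  have c1 : 1 ≤ ℓ a := ((le_max_left _ _).trans (le_max_left _ _)).trans ha
  have c2 : K1 ≤ ℓ a := ((le_max_right _ _).trans (le_max_left _ _)).trans ha
  have c3 : 2 * K2 ≤ ε * ℓ a := by
    have := (le_max_right _ _).trans ha
    rw [div_le_iff₀ hε] at this
    linarith
  have hℓ : 0 < ℓ a := by linarith
  have hEℓ : 0 ≤ E * ℓ a := by positivity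
  have hεℓ : 0 < ε * ℓ a := by positivity
  rcases le_or_gt (κ + 1 / 2) w.re with h5 | h5
  · refine (h2 a w (by linarith)).trans (Real.exp_le_exp.2 (by linarith))
  refine three_m (w1 := w) (σ1 := σ) (σ2 := κ + 1 / 2) (h := h) (ℓ := ℓ a) (κ := k)
    (A := E * ℓ a) (B := K2) (G := (g + 1) * ℓ a) (m := 0) (D := D) hℓ hk0 hh0
    le_rfl (by norm_num) hw1 h5.le (by linarith) (by linarith) ?_ ?_ ?_ ?_ ?_ ?_ ?_
  · intro z _ _ _
    exact H.fd a z
  · intro z hz1 hz3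
    exact hb z hz1 (im_near hz3 hw2)
  · intro z hz1 hz3
    exact h2 a z (by rw [hz1]; linarith)
  · intro z hz1 _ hz3
    refine (h1 a z (by linarith) (im_near hz3 hw2)).trans (Real.exp_le_exp.2 (by linarith))
  · rw [hkD]
    linarith
  · rw [hkD]
    linarith
  · rw [hkD, hh2]
    have : 0 ≤ (E + ε) * ℓ a := by positivity
    have e : (g + 1) * ℓ a + ℓ a * (D + ε / 2 - (g + 1 + D)) = ε / 2 * ℓ a := by ring
    rw [e]
    linarith

/-- convexity between `1/2 - h` and `1/2 + h` -/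
theorem convex_step (H : Fam f ℓ κ δ g M) (ε h R : ℝ) (hε : 0 < ε) (hh0 : 0 < h) (hh1 : h ≤ δ) :
    ∃ A L : ℝ, ∀ a, L ≤ ℓ a → ∀ E : ℝ, 0 ≤ E →
      (∀ w : ℂ, w.re = 1 / 2 + h → |w.im| ≤ A → ‖f a w‖ ≤ Real.exp (E * ℓ a)) →
      ∀ w : ℂ, 1 / 2 - h ≤ w.re → w.re ≤ 1 / 2 + h → |w.im| ≤ R →
        ‖f a w‖ ≤ Real.exp ((E + 1 / 2 * (1 / 2 + h - w.re) + ε) * ℓ a) := by
  have hg := H.g1
  have hδ1 := H.δ1
  set k : ℝ := ε / 8 with hk
  have hk0 : 0 < k := by positivity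
  set b : ℝ := Real.sqrt ((g + 3 + 4 * k) / k) with hb'
  have hb0 : 0 < b := by positivity
  have hb2 : k * b ^ 2 = g + 3 + 4 * k := by
    rw [hb', Real.sq_sqrt (by positivity)]; field_simp
  obtain ⟨K1, h1⟩ := H.grow (R + b)
  obtain ⟨K2, h2⟩ := H.up (R + b) 1
  refine ⟨R + b, max (max 1 K1) (2 * K2 / ε), ?_⟩
  intro a ha E hE hb w hw1 hw2 hw3
  have c1 : 1 ≤ ℓ a := ((le_max_left _ _).trans (le_max_left _ _)).trans ha
  have c2 : K1 ≤ ℓ a := ((le_max_right _ _).trans (le_max_left _ _)).trans ha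
  have c3 : 2 * K2 ≤ ε * ℓ a := by
    have := (le_max_right _ _).trans ha
    rw [div_le_iff₀ hε] at this
    linarith
  have hℓ : 0 < ℓ a := by linarith
  refine three_m (w1 := w) (σ1 := 1 / 2 - h) (σ2 := 1 / 2 + h) (h := b) (ℓ := ℓ a) (κ := k)
    (A := (E + h) * ℓ a + K2) (B := E * ℓ a) (G := (g + 1) * ℓ a) (m := 1 / 2) (D := 2) hℓ hk0 hb0
    (by norm_num) (by norm_num) hw1 hw2 (by linarith) (by linarith) ?_ ?_ ?_ ?_ ?_ ?_ ?_
  · intro z _ _ _
    exact H.fd a z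
  · intro z hz1 hz3
    have hzw := im_near hz3 hw3
    set z' : ℂ := ⟨1 / 2 + h, z.im⟩ with hz'
    have hzp : z'.re = 1 / 2 + h := rfl
    have hzq : z'.im = z.im := rfl
    have e : hh (f a) z' = (starRingEnd ℂ) (f a z) := by
      unfold hh
      congr 2
      apply Complex.ext
      · simp [hzp, hz1]; ring
      · simp [hzq]
    have k1 := h2 a z' (by rw [hzp]; linarith) (by rw [hzp]; linarith) (by rw [hzq]; exact hzw)
    rw [e, Complex.norm_conj, hzp] at k1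
    have k2 := hb z' hzp (by rw [hzq]; exact hzw)
    calc ‖f a z‖ ≤ Real.exp ((1 / 2 + h - 1 / 2) * ℓ a + K2) * Real.exp (E * ℓ a) :=
          k1.trans (by gcongr)
      _ = Real.exp ((1 / 2 + h - 1 / 2) * ℓ a + K2 + E * ℓ a) := by rw [← Real.exp_add]
      _ ≤ _ := Real.exp_le_exp.2 (by linarith)
  · intro z hz1 hz3
    exact hb z hz1 (im_near hz3 hw3)
  · intro z hz1 _ hz3
    refine (h1 a z (by linarith) (im_near hz3 hw3)).trans (Real.exp_le_exp.2 (by linarith))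
  · have e : (2 : ℝ) ^ 2 * k = ε / 2 := by rw [hk]; ring
    rw [e]
    nlinarith
  · have e : (2 : ℝ) ^ 2 * k = ε / 2 := by rw [hk]; ring
    rw [e]
    have : 0 < ε * ℓ a := by positivity
    nlinarith
  · have e : (2 : ℝ) + 2 ^ 2 * k - k * b ^ 2 = -(g + 1) := by rw [hb2]; ring
    rw [e]
    have h5 : 0 ≤ (E + 1 / 2 * (1 / 2 + h - w.re) + ε) * ℓ a := by
      have : 0 ≤ E + 1 / 2 * (1 / 2 + h - w.re) + ε := by linarith
      positivity
    linarith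

/-- few zeros of `TT l (hh f)` near the real axis imply `f ≪ exp (μ ℓ)` there -/
def PP (f : α → ℂ → ℂ) (ℓ : α → ℝ) (l : List ℂ) (B μ : ℝ) : Prop := ∀ R : ℝ, ∃ η A L : ℝ, 0 < η ∧
  ∀ a, L ≤ ℓ a →
    ZL (TT l (hh (f a))) {w | 1 / 2 + η ≤ w.re ∧ w.re ≤ 1 + B ∧ |w.im| ≤ A} (η * ℓ a) →
    ∀ w : ℂ, 1 / 2 ≤ w.re → |w.im| ≤ R → ‖f a w‖ ≤ Real.exp (μ * ℓ a)

theorem ZL_small {F : ℂ → ℂ} {B e η η' A A' : ℝ} (he : 0 ≤ e) (hη : η' ≤ η) (hA : A ≤ A')
    (h : ZL F {w | 1 / 2 + η' ≤ w.re ∧ w.re ≤ 1 + B ∧ |w.im| ≤ A'} (η' * e)) :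
    ZL F {w | 1 / 2 + η ≤ w.re ∧ w.re ≤ 1 + B ∧ |w.im| ≤ A} (η * e) := by
  refine h.mono ?_ (by gcongr)
  rintro w ⟨h1, h2, h3⟩
  exact ⟨by linarith, h2, by linarith⟩

theorem PP_mono (H : Fam f ℓ κ δ g M) (l : List ℂ) {B μ μ' : ℝ} (h : μ ≤ μ') (hP : PP f ℓ l B μ) :
    PP f ℓ l B μ' := by
  intro R
  obtain ⟨η, A, L, hη, h1⟩ := hP R
  refine ⟨η, A, L, hη, fun a ha hZ w hw1 hw2 => (h1 a ha hZ w hw1 hw2).trans ?_⟩
  apply Real.exp_le_exp.2
  have := H.ℓ0 a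
  gcongr

theorem PP_start (H : Fam f ℓ κ δ g M) (l : List ℂ) (B : ℝ) : PP f ℓ l B (g + 1) := by
  intro R
  obtain ⟨K, hK⟩ := H.grow R
  refine ⟨1, 1, K, one_pos, fun a ha _ w hw1 hw2 => (hK a w (by linarith) hw2).trans
    (Real.exp_le_exp.2 (by linarith))⟩

/-- one step of the iteration -/
theorem PP_step (H : Fam f ℓ κ δ g M) (l : List ℂ) (B ε : ℝ) (hB : κ - 1 < B) (hε : 0 < ε)
    (hε1 : 12 * ε ≤ δ) (μ : ℝ) (hμ0 : 0 ≤ μ) (hP : PP f ℓ l B μ) :
    PP f ℓ l B (max (11 * ε) (μ - ε)) := by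
  intro R
  have hδ1 := H.δ1
  have hκ := H.κ0
  set h : ℝ := 12 * ε with hhd
  obtain ⟨A2, L2, hconv⟩ := convex_step H ε h R hε (by positivity) hε1
  obtain ⟨A3, L3, hright⟩ := to_right H ε R hε
  set R' : ℝ := max A2 A3 with hR'
  obtain ⟨η1, A1, L1, hη1, hgain⟩ := gain H l R' B ε hB hε (by linarith)
  obtain ⟨η0, A0, L0, hη0, hold⟩ := hP (R' + 1)
  refine ⟨min η0 η1, max A0 A1, max (max L0 L1) (max L2 L3), by positivity, ?_⟩
  intro a ha hZ
  have k0 : L0 ≤ ℓ a := ((le_max_left _ _).trans (le_max_left _ _)).trans ha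
  have k1 : L1 ≤ ℓ a := ((le_max_right _ _).trans (le_max_left _ _)).trans ha
  have k2 : L2 ≤ ℓ a := ((le_max_left _ _).trans (le_max_right _ _)).trans ha
  have k3 : L3 ≤ ℓ a := ((le_max_right _ _).trans (le_max_right _ _)).trans ha
  have hℓ := H.ℓ0 a
  have h1 := hold a k0 (ZL_small hℓ (min_le_left _ _) (le_max_left _ _) hZ)
  have h2 := hgain a k1 (ZL_small hℓ (min_le_right _ _) (le_max_right _ _) hZ) μ hμ0 h1
  set E : ℝ := max (3 * ε) (μ + 3 * ε - h) with hE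
  have hE0 : 0 ≤ E := le_trans (by positivity) (le_max_left _ _)
  have hEM : E + 7 * ε ≤ max (11 * ε) (μ - ε) := by
    rcases le_total (3 * ε) (μ + 3 * ε - h) with h' | h'
    · have : E = μ + 3 * ε - h := max_eq_right h'
      rw [this]
      exact le_trans (by linarith) (le_max_right _ _)
    · have : E = 3 * ε := max_eq_left h'
      rw [this]
      exact le_trans (by linarith) (le_max_left _ _)
  have h3 : ∀ w : ℂ, w.re = 1 / 2 + h → |w.im| ≤ R' → ‖f a w‖ ≤ Real.exp (E * ℓ a) := by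
    intro w hw1 hw2
    have h4 := h2 w hw2 (by linarith) (by linarith)
    have e : w.re - 1 / 2 = h := by rw [hw1]; ring
    rw [e] at h4
    exact h4
  have hc := hconv a k2 E hE0 (fun w hw1 hw2 => h3 w hw1 (hw2.trans (le_max_left _ _)))
  have hr := hright a k3 (1 / 2 + h) E (by linarith) (by linarith) hE0
    (fun w hw1 hw2 => h3 w hw1 (hw2.trans (le_max_right _ _)))
  intro w hw1 hw2
  rcases le_or_gt w.re (1 / 2 + h) with hw3 | hw3
  · refine (hc w (by linarith) hw3 hw2).trans (Real.exp_le_exp.2 ?_)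
    have : E + 1 / 2 * (1 / 2 + h - w.re) + ε ≤ max (11 * ε) (μ - ε) := by linarith
    gcongr
  · refine (hr w hw3.le hw2).trans (Real.exp_le_exp.2 ?_)
    have : E + ε ≤ max (11 * ε) (μ - ε) := by linarith
    gcongr

/-- few zeros imply the Lindelöf bound -/
theorem PP_all (H : Fam f ℓ κ δ g M) (l : List ℂ) (B : ℝ) (hB : κ - 1 < B) (μ : ℝ) (hμ : 0 < μ) :
    PP f ℓ l B μ := by
  have hδ0 := H.δ0
  set ε : ℝ := min (μ / 11) (δ / 12) with hε
  have hε0 : 0 < ε := by positivity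
  have hε1 : 12 * ε ≤ δ := by
    have : ε ≤ δ / 12 := min_le_right _ _
    linarith
  have hε2 : 11 * ε ≤ μ := by
    have : ε ≤ μ / 11 := min_le_left _ _
    linarith
  have hn : ∀ n : ℕ, PP f ℓ l B (max (11 * ε) (g + 1 - n * ε)) := by
    intro n
    induction n with
    | zero =>
      refine PP_mono H l ?_ (PP_start H l B)
      simp
    | succ n ih =>
      have h1 := PP_step H l B ε hB hε0 hε1 _ (le_trans (by positivity) (le_max_left _ _)) ih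
      refine PP_mono H l ?_ h1
      apply max_le (le_max_left _ _)
      rcases le_total (11 * ε) (g + 1 - n * ε) with h | h
      · rw [max_eq_right h]
        refine le_trans ?_ (le_max_right _ _)
        push_cast
        linarith
      · rw [max_eq_left h]
        refine le_trans ?_ (le_max_left _ _)
        linarith
  obtain ⟨n, hn1⟩ := exists_nat_gt ((g + 1) / ε)
  refine PP_mono H l ?_ (hn n)
  apply max_le hε2
  rw [div_lt_iff₀ hε0] at hn1
  linarith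

/-- small values on the critical line imply few zeros -/
theorem converse (H : Fam f ℓ κ δ g M) (l : List ℂ) (R x ε : ℝ) (hε : 0 < ε) : ∃ η A L : ℝ, 0 < η ∧
    ∀ a, L ≤ ℓ a → (∀ y : ℝ, |y| ≤ A → ‖f a ⟨1 / 2, y⟩‖ ≤ Real.exp (η * ℓ a)) →
      ZL (TT l (hh (f a))) {w | 1 / 2 + ε ≤ w.re ∧ w.re ≤ x ∧ |w.im| ≤ R} (ε * ℓ a) := by
  have hκ := H.κ0
  obtain ⟨ε', R1, L1, hε', h1⟩ := count H l R x (min ε 1) ε (by positivity) (min_le_right _ _) hε
  obtain ⟨A, L2, h2⟩ := to_right H (ε' / 2) R1 (by positivity)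
  refine ⟨ε' / 2, A, max L1 L2, by positivity, fun a ha hs => ?_⟩
  refine (h1 a ((le_max_left _ _).trans ha) (1 / 2) le_rfl (by linarith) ?_).mono ?_ le_rfl
  · intro w hw1 hw2
    refine (h2 a ((le_max_right _ _).trans ha) (1 / 2) (ε' / 2) le_rfl (by linarith)
      (by positivity) ?_ w hw1 hw2).trans (Real.exp_le_exp.2 (le_of_eq (by ring)))
    intro z hz1 hz2
    have e : z = ⟨1 / 2, z.im⟩ := by
      apply Complex.ext
      · exact hz1
      · rfl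
    rw [e]
    exact hs z.im hz2
  · rintro w ⟨h3, h4, h5⟩
    exact ⟨by linarith [min_le_left ε 1], h4, h5⟩

end Pool.Agent.N799.GL
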