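import Pool.Agent.N799.GL.LogD
import Pool.Agent.N799.GL.Iter

/-!
# Families of L-functions of `GL(m)`
-/

set_option autoImplicit false

open Complex Filter Topology Set Metric

namespace Pool.Agent.N799.GL

open H855R2.SF Pool.Agent.W188.GLR Pool.Agent.N799.SP

variable {m : ℕ} {ι : Type} {N : ι → ℕ} {mu : ι → Fin m → ℂ} {f : ι → ℂ → ℂ} {X : ι → ℝ → ℝ} {δ : ℝ}

/-- the translated functions -/
noncomputable def fa (f : ι → ℂ → ℂ) (a : ι × ℝ) (s : ℂ) : ℂ := f a.1 (s + a.2 * I)

/-- the logarithm of the local conductor -/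
noncomputable def la (N : ι → ℕ) (mu : ι → Fin m → ℂ) (a : ι × ℝ) : ℝ :=
  Real.log (QL (N a.1) (mu a.1) a.2)

theorem hh_fa (f : ι → ℂ → ℂ) (a : ι × ℝ) (w : ℂ) : hh (fa f a) w = hh (f a.1) (w + a.2 * I) := by
  unfold hh fa
  congr 2
  simp
  ring

theorem pole_eq (w μ : ℂ) (i : ℕ) : ‖(w - μ) / 2 - ((w.re - 1 / 2 : ℝ) : ℂ) + i‖ =
    ‖(1 - w - (starRingEnd ℂ) μ) / 2 + i‖ := by
  rw [← norm_conj]
  congr 1
  have e : (starRingEnd ℂ) w = 2 * (w.re : ℂ) - w := by
    apply Complex.ext
    · simp; ring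
    · simp
  simp only [map_add, map_sub, map_div₀, conj_ofReal, map_natCast, map_ofNat, e]
  push_cast
  ring

theorem QL_pos {n : ℕ} (hn : 0 < n) (mu : Fin m → ℂ) (t : ℝ) : 1 ≤ QL n mu t := by
  unfold QL
  exact cond_one_le hn mu t

theorem la_shift {n : ℕ} (hn : 0 < n) (mu : Fin m → ℂ) (t u R : ℝ) (hu : |u| ≤ R) :
    Real.log (QL n mu (t + u)) ≤ m * Real.log (1 + R) + Real.log (QL n mu t) := by
  have h1 := cond_shift n mu t u
  have h0 : (0 : ℝ) ≤ |u| := abs_nonneg u
  have h2 : QL n mu (t + u) ≤ (1 + R) ^ (m : ℝ) * QL n mu t := by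
    refine le_trans h1 ?_
    apply mul_le_mul_of_nonneg_right _ (by
      have := QL_pos hn mu t
      unfold QL at this
      linarith)
    apply Real.rpow_le_rpow (by positivity) (by linarith) (Nat.cast_nonneg _)
  have h3 := Real.log_le_log (by linarith [QL_pos hn mu (t + u)]) h2
  have hR : 0 < 1 + R := by linarith
  rw [Real.log_mul (by positivity) (by linarith [QL_pos hn mu t]), Real.log_rpow hR] at h3
  exact h3

theorem log_X_le (H : GLData m N mu f X δ) (i : ι) (t : ℝ) :
    Real.log ((1 + |t|) * (N i * ∏ j, (1 + ‖mu i j‖))) ≤ (m + 2) * Real.log (QL (N i) (mu i) t) := by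
  have h1 := cond_lower H.hm (H.N_pos i) (H.im_sum i) t
  have h2 := H.C1 i
  have h3 : 0 < (1 + |t|) * (N i * ∏ j, (1 + ‖mu i j‖)) := by
    have := abs_nonneg t
    have : 0 < 1 + |t| := by linarith
    positivity
  have h4 := Real.log_le_log h3 h1
  rw [Real.log_pow] at h4
  push_cast at h4
  exact h4

theorem fam_of (H : GLData m N mu f X δ) {κ b : ℝ} (hκ : 1 ≤ κ) (hb : 0 < b)
    (hfar : ∀ i (s : ℂ), κ ≤ s.re → 1 / b ≤ ‖f i s‖ ∧ ‖f i s‖ ≤ b) :
    Fam (fa f) (la N mu) κ (min (δ / 2) (1 / 2)) (m * (m + 2)) m where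
  κ0 := hκ
  δ0 := by
    have := H.hδ
    positivity
  δ1 := min_le_right _ _
  g1 := by
    have : (1 : ℝ) ≤ m := by exact_mod_cast H.hm
    nlinarith
  ℓ0 := fun a => Real.log_nonneg (QL_pos (H.N_pos a.1) _ _)
  fd := by
    intro a
    have h1 := H.entire a.1
    exact h1.comp (by fun_prop)
  hd := by
    intro a
    apply hh_diff
    have h1 := H.entire a.1
    exact h1.comp (by fun_prop)
  grow := by
    intro R
    obtain ⟨C, hC, hcr⟩ := Pool.Agent.H983R4.GL.crude H.afam
    have hm0 : (0 : ℝ) ≤ m := Nat.cast_nonneg _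
    refine ⟨Real.log C + m * (m + 2) * (m * Real.log (1 + |R|)), fun a s h0 h1 => ?_⟩
    have e1 : (s + a.2 * I).re = s.re := by simp
    have e2 : (s + a.2 * I).im = a.2 + s.im := by simp [add_comm]
    have h2 := hcr a.1 (s + a.2 * I) (by rw [e1]; linarith)
    rw [e2] at h2
    have h3 := H.C1 a.1
    have h4 : 0 < (1 + |a.2 + s.im|) * (N a.1 * ∏ j, (1 + ‖mu a.1 j‖)) := by
      have : 0 < 1 + |a.2 + s.im| := by positivity
      positivity
    have h5 := log_X_le H a.1 (a.2 + s.im)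
    have h6 := la_shift (H.N_pos a.1) (mu a.1) a.2 s.im |R| (h1.trans (le_abs_self R))
    have e3 : ((1 + |a.2 + s.im|) * (N a.1 * ∏ j, (1 + ‖mu a.1 j‖))) ^ (m : ℝ) =
        Real.exp (m * Real.log ((1 + |a.2 + s.im|) * (N a.1 * ∏ j, (1 + ‖mu a.1 j‖)))) := by
      rw [Real.rpow_def_of_pos h4, mul_comm]
    refine h2.trans ?_
    rw [e3]
    nth_rewrite 1 [← Real.exp_log (by linarith : 0 < C)]
    rw [← Real.exp_add]
    apply Real.exp_le_exp.2
    have h7 : m * Real.log ((1 + |a.2 + s.im|) * (N a.1 * ∏ j, (1 + ‖mu a.1 j‖))) ≤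
        m * ((m + 2) * (m * Real.log (1 + |R|) + Real.log (QL (N a.1) (mu a.1) a.2))) := by
      gcongr
      refine h5.trans ?_
      gcongr
    unfold la
    linarith
  right := by
    refine ⟨Real.log b, fun a s hs => ?_⟩
    rw [Real.exp_log hb]
    exact (hfar a.1 (s + a.2 * I) (by simpa using hs)).2
  up := by
    intro R x
    obtain ⟨K, hK⟩ := hh_up m H.hδ |R| |x| (abs_nonneg _) (abs_nonneg _)
    refine ⟨K, fun a w h0 h1 h2 => ?_⟩
    obtain ⟨root, hroot, hfe⟩ := H.fe a.1
    have e1 : (w + a.2 * I).re = w.re := by simp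
    have e2 : (w + a.2 * I).im = w.im + a.2 := by simp
    have h3 := hK (N a.1) (mu a.1) root (f a.1) a.2 (w + a.2 * I) (H.N_pos a.1) (H.gap a.1) hroot hfe
      (by rw [e1]; exact h0) (by rw [e1]; linarith [le_abs_self x])
      (by rw [e2, add_sub_cancel_right]; exact h2.trans (le_abs_self R))
    rw [e1] at h3
    rw [hh_fa]
    exact h3
  low := by
    intro R
    have hδ := H.hδ
    obtain ⟨K, hK⟩ := hh_low m (ρ := δ / 4) (by positivity) |R| (1 / 2) (abs_nonneg _) (by norm_num)
    refine ⟨K, fun a w h0 h1 h2 => ?_⟩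
    obtain ⟨root, hroot, hfe⟩ := H.fe a.1
    have e1 : (w + a.2 * I).re = w.re := by simp
    have e2 : (w + a.2 * I).im = w.im + a.2 := by simp
    have hm1 : min (δ / 2) (1 / 2) ≤ δ / 2 := min_le_left _ _
    have hm2 : min (δ / 2) (1 / 2) ≤ 1 / 2 := min_le_right _ _
    have h3 := hK (N a.1) (mu a.1) root (f a.1) a.2 (w + a.2 * I) (H.N_pos a.1)
      (fun j => by linarith [H.gap a.1 j]) hroot hfe
      (by rw [e1]; exact h0) (by rw [e1]; linarith)
      (by rw [e2, add_sub_cancel_right]; exact h2.trans (le_abs_self R)) (by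
        intro j i
        have h4 := re_le_norm ((w + a.2 * I - mu a.1 j) / 2 -
          ((((w + a.2 * I).re - 1 / 2 : ℝ)) : ℂ) + i)
        refine le_trans ?_ h4
        have e : ((w + a.2 * I - mu a.1 j) / 2 - ((((w + a.2 * I).re - 1 / 2 : ℝ)) : ℂ) + i).re =
            (w.re - (mu a.1 j).re) / 2 - (w.re - 1 / 2) + i := by
          rw [e1]; simp
        rw [e]
        have h5 := H.gap a.1 j
        have : (0 : ℝ) ≤ i := Nat.cast_nonneg _
        linarith)
    rw [e1] at h3
    rw [hh_fa]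
    exact h3
  cen := by
    intro R x hx
    have hm : (0 : ℝ) < m + 1 := by positivity
    have hδ := H.hδ
    obtain ⟨K1, h1⟩ := hh_low m (ρ := 1 / (8 * ((m : ℝ) + 1))) (by positivity) (|R| + 1) (x + 2)
      (by positivity) (by linarith)
    obtain ⟨K2, h2⟩ := logD_near m H.hδ (ρ := 1 / (8 * ((m : ℝ) + 1))) (by positivity) (|R| + 1)
      (x + 2) (by positivity) (by linarith)
    refine ⟨max (K1 + Real.log b) (4 * b ^ 2 + K2), fun a y hy => ?_⟩
    obtain ⟨i, hi, hgood⟩ := good_centre m (fun j => 1 - (mu a.1 j).re) x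
    refine ⟨i, hi, fun w hw => ?_⟩
    obtain ⟨root, hroot, hfe⟩ := H.fe a.1
    have e1 : (w + a.2 * I).re = w.re := by simp
    have e2 : (w + a.2 * I).im = w.im + a.2 := by simp
    obtain ⟨h3, h4⟩ := ball_coords hw
    have h3' := abs_lt.1 h3
    have hi1 : (i : ℝ) / (m + 1) ≤ 1 := by
      rw [div_le_one hm]
      have : (i : ℝ) ≤ m := by exact_mod_cast hi
      linarith
    have hi0 : (0 : ℝ) ≤ i / (m + 1) := by positivity
    have hr4 : 1 / (4 * ((m : ℝ) + 1)) ≤ 1 / 4 := by
      apply one_div_le_one_div_of_le (by norm_num)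
      have : (0 : ℝ) ≤ m := Nat.cast_nonneg m
      linarith
    have hwim : |w.im| ≤ |R| + 1 := by
      calc |w.im| = |(w.im - y) + y| := by congr 1; ring
        _ ≤ |w.im - y| + |y| := abs_add_le _ _
        _ ≤ |R| + 1 := by linarith [le_abs_self R]
    have hpole : ∀ j, ∀ n : ℕ, 1 / (8 * ((m : ℝ) + 1)) ≤
        ‖(1 - (w + a.2 * I) - (starRingEnd ℂ) (mu a.1 j)) / 2 + n‖ := by
      intro j n
      have h5 := abs_re_le_norm ((1 - (w + a.2 * I) - (starRingEnd ℂ) (mu a.1 j)) / 2 + n)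
      refine le_trans ?_ h5
      have e : ((1 - (w + a.2 * I) - (starRingEnd ℂ) (mu a.1 j)) / 2 + n).re =
          ((1 - (mu a.1 j).re) + 2 * n - w.re) / 2 := by
        simp; ring
      rw [e, abs_div, abs_two]
      have h6 := hgood j n
      have h7 : |x + i / (m + 1) - (1 - (mu a.1 j).re + 2 * n)| ≤
          |w.re - (x + i / (m + 1))| + |1 - (mu a.1 j).re + 2 * n - w.re| := by
        have h8 := abs_add_le (w.re - (x + i / (m + 1))) (1 - (mu a.1 j).re + 2 * n - w.re)
        have e3 : w.re - (x + i / (m + 1)) + (1 - (mu a.1 j).re + 2 * n - w.re) =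
            -(x + i / (m + 1) - (1 - (mu a.1 j).re + 2 * n)) := by ring
        rw [e3, abs_neg] at h8
        exact h8
      have e4 : 1 / (2 * ((m : ℝ) + 1)) = 2 * (1 / (4 * ((m : ℝ) + 1))) := by field_simp; ring
      have e5 : 1 / (4 * ((m : ℝ) + 1)) = 2 * (1 / (8 * ((m : ℝ) + 1))) := by field_simp; ring
      rw [le_div_iff₀ (by norm_num)]
      linarith
    have hκw : κ + 1 / 2 ≤ w.re := by linarith
    have hfw := hfar a.1 (w + a.2 * I) (by rw [e1]; linarith)
    have hfw0 : 0 < ‖f a.1 (w + a.2 * I)‖ := lt_of_lt_of_le (by positivity) hfw.1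
    have k1 := h1 (N a.1) (mu a.1) root (f a.1) a.2 (w + a.2 * I) (H.N_pos a.1)
      (fun j => by linarith [H.gap a.1 j]) hroot hfe
      (by rw [e1]; linarith) (by rw [e1]; linarith)
      (by rw [e2, add_sub_cancel_right]; exact hwim) (by
        intro j n
        rw [pole_eq]
        exact hpole j n)
    have k2 := h2 (N a.1) (mu a.1) root (f a.1) a.2 (w + a.2 * I) (H.N_pos a.1)
      (H.gap a.1) hroot (H.entire a.1) hfe
      (by rw [e1]; linarith) (by rw [e1]; linarith)
      (by rw [e2, add_sub_cancel_right]; exact hwim) (norm_pos_iff.1 hfw0) hpole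
    have hder : deriv (hh (fa f a)) w = deriv (hh (f a.1)) (w + a.2 * I) := by
      have e : hh (fa f a) = fun z => hh (f a.1) (z + a.2 * I) := by
        funext z; exact hh_fa f a z
      rw [e, deriv_comp_add_const]
    have hlog : ‖deriv (f a.1) (w + a.2 * I) / f a.1 (w + a.2 * I)‖ ≤ 4 * b ^ 2 := by
      have h5 := cauchy_deriv (f := f a.1) (z := w + a.2 * I) (r := 1 / 2) (B := b) (by norm_num)
        (H.entire a.1).differentiableOn (fun z hz => (hfar a.1 z (by
          have := abs_lt.1 (ball_coords hz).1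
          rw [e1] at this
          linarith)).2)
      rw [norm_div, div_le_iff₀ hfw0]
      have h6 : 4 * b ≤ 4 * b ^ 2 * ‖f a.1 (w + a.2 * I)‖ := by
        calc 4 * b = 4 * b ^ 2 * (1 / b) := by field_simp
          _ ≤ _ := by
            gcongr
            exact hfw.1
      have h7 : 2 * b / (1 / 2) = 4 * b := by ring
      rw [h7] at h5
      exact h5.trans h6
    rw [hh_fa, hder]
    refine ⟨k2.1, ?_, ?_⟩
    · refine k2.2.trans (le_trans ?_ (le_max_right _ _))
      linarith
    · refine le_trans ?_ k1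
      rw [e1]
      have h5 : 1 / b = Real.exp (-Real.log b) := by
        rw [Real.exp_neg, Real.exp_log hb, one_div]
      calc Real.exp ((w.re - 1 / 2) * la N mu a - max (K1 + Real.log b) (4 * b ^ 2 + K2))
          ≤ Real.exp ((w.re - 1 / 2) * la N mu a - K1 + -Real.log b) := by
            apply Real.exp_le_exp.2
            have := le_max_left (K1 + Real.log b) (4 * b ^ 2 + K2)
            linarith
        _ = Real.exp ((w.re - 1 / 2) * Real.log (QL (N a.1) (mu a.1) a.2) - K1) * (1 / b) := by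
            rw [Real.exp_add, ← h5]
            rfl
        _ ≤ _ := by
            gcongr
            exact hfw.1

end Pool.Agent.N799.GL
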