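import Pool.Agent.N799.GL.Fac

/-!
# The logarithmic derivative of the reflected function away from the trivial zeros
-/

set_option autoImplicit false

open Complex Filter Topology Set

namespace Pool.Agent.N799.GL

open H855R2.SF Pool.Agent.W188.GLR

theorem hh_diff {f : ℂ → ℂ} (hf : Differentiable ℂ f) : Differentiable ℂ (hh f) := by
  intro w
  have h1 : Differentiable ℂ (fun z : ℂ => f (1 - z)) := hf.comp (by fun_prop)
  have h2 := ((h1 ((starRingEnd ℂ) w)).hasDerivAt).conj_conj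
  have e : ((starRingEnd ℂ) ∘ (fun z : ℂ => f (1 - z)) ∘ (starRingEnd ℂ)) = hh f := by
    funext z; rfl
  rw [e, conj_conj] at h2
  exact h2.differentiableAt

theorem log_close (D : ℝ) (hD : 0 ≤ D) : ∃ K : ℝ, ∀ (p : ℂ) (n : ℝ), 0 ≤ n → 1 ≤ ‖p‖ →
    |2 * ‖p‖ - n| ≤ D → ‖log p - (Real.log (1 + n) : ℝ)‖ ≤ K := by
  refine ⟨Real.log (3 + D) + Real.pi, fun p n hn hp h => ?_⟩
  have h1 := abs_le.1 h
  have hp0 : 0 < ‖p‖ := by linarith
  refine (norm_le_abs_re_add_abs_im _).trans ?_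
  rw [sub_re, sub_im, ofReal_re, ofReal_im, sub_zero, log_re, log_im]
  have h2 : |Real.log ‖p‖ - Real.log (1 + n)| ≤ Real.log (3 + D) := by
    rw [abs_le]
    constructor
    · have h3 : Real.log (1 + n) ≤ Real.log ((3 + D) * ‖p‖) := by
        apply Real.log_le_log (by linarith)
        nlinarith
      rw [Real.log_mul (by linarith) hp0.ne'] at h3
      linarith
    · have h3 : Real.log ‖p‖ ≤ Real.log ((3 + D) * (1 + n)) := by
        apply Real.log_le_log hp0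
        nlinarith
      rw [Real.log_mul (by linarith) (by linarith)] at h3
      linarith
  linarith [abs_arg_le_pi p]

/-- the logarithmic derivative of `Γ_ℝ` away from the poles -/
theorem lam_bd {ρ : ℝ} (hρ : 0 < ρ) (k : ℕ) (D : ℝ) (hD : 0 ≤ D) : ∃ K : ℝ, ∀ (v : ℂ) (n : ℝ),
    0 ≤ n → (∀ i : ℕ, ρ ≤ ‖v / 2 + i‖) → 1 ≤ (v / 2 + k).re → |‖v‖ - n| ≤ D →
    ‖Lam v - (Real.log (1 + n) / 2 : ℝ)‖ ≤ K := by
  obtain ⟨K1, h1⟩ := psi_bd hρ k
  obtain ⟨K2, h2⟩ := log_close (D + 2 * k + 4) (by positivity)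
  refine ⟨Real.log Real.pi / 2 + (K1 + K2) / 2, fun v n hn hpole hre hd => ?_⟩
  have h3 := h1 (v / 2) hpole hre
  have hp : 1 ≤ ‖v / 2 + k + 2‖ := by
    have := re_le_norm (v / 2 + k + 2)
    rw [add_re] at this
    have e : (2 : ℂ).re = 2 := rfl
    rw [e] at this
    linarith
  have h4 := h2 (v / 2 + k + 2) n hn hp (by
    have e1 : 2 * ‖v / 2 + k + 2‖ = ‖v + (2 * k + 4 : ℝ)‖ := by
      have e2 : v + ((2 * k + 4 : ℝ) : ℂ) = 2 * (v / 2 + k + 2) := by push_cast; ring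
      rw [e2, norm_mul]
      simp
    rw [e1]
    have h5 := norm_add_le v (2 * k + 4 : ℝ)
    have h6 := norm_sub_le (v + ((2 * k + 4 : ℝ) : ℂ)) ((2 * k + 4 : ℝ) : ℂ)
    rw [add_sub_cancel_right] at h6
    rw [Complex.norm_real, Real.norm_of_nonneg (by positivity)] at h5 h6
    have hd' := abs_le.1 hd
    rw [abs_le]
    constructor <;> linarith)
  have hlp : 0 ≤ Real.log Real.pi := Real.log_nonneg (by linarith [Real.pi_gt_three])
  have e : Lam v - ((Real.log (1 + n) / 2 : ℝ) : ℂ) = -((Real.log Real.pi / 2 : ℝ) : ℂ) +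
      ((logDeriv Gamma (v / 2) - log (v / 2 + k + 2)) / 2 +
        (log (v / 2 + k + 2) - (Real.log (1 + n) : ℝ)) / 2) := by
    unfold Lam
    push_cast
    ring
  rw [e]
  refine (norm_add_le _ _).trans ?_
  rw [norm_neg, Complex.norm_real, Real.norm_of_nonneg (by positivity)]
  refine add_le_add le_rfl ((norm_add_le _ _).trans ?_)
  rw [norm_div, norm_div]
  simp only [Complex.norm_ofNat]
  linarith

variable {m : ℕ}

/-- the logarithmic derivative of the reflected function -/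
theorem logD_hh {N : ℕ} (hN : 0 < N) {mu : Fin m → ℂ} (hmu : ∀ j, (mu j).re < 1 / 2) {root : ℂ}
    (hroot : ‖root‖ = 1) {f : ℂ → ℂ} (hf : Differentiable ℂ f)
    (hfe : ∀ s : ℂ, f s * ∏ j, (Gammaℝ (1 - s - (starRingEnd ℂ) (mu j)))⁻¹ =
      root * (N : ℂ) ^ (1 / 2 - s) * (starRingEnd ℂ) (f (1 - (starRingEnd ℂ) s)) *
        ∏ j, (Gammaℝ (s - mu j))⁻¹) {w : ℂ} (hw : 1 / 2 ≤ w.re) (hfw : f w ≠ 0)
    (hpole : ∀ j, ∀ i : ℕ, (1 - w - (starRingEnd ℂ) (mu j)) / 2 + i ≠ 0) :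
    hh f w ≠ 0 ∧ deriv (hh f) w / hh f w = deriv f w / f w + (Real.log N : ℝ) +
      ∑ j, (Lam (w - mu j) + Lam (1 - w - (starRingEnd ℂ) (mu j))) := by
  have hNc : (N : ℂ) ≠ 0 := by exact_mod_cast hN.ne'
  have hroot0 : root ≠ 0 := by
    intro h; rw [h] at hroot; simp at hroot
  have hd1 : ∀ j, HasDerivAt (fun s => (Gammaℝ (1 - s - (starRingEnd ℂ) (mu j)))⁻¹)
      ((Gammaℝ (1 - w - (starRingEnd ℂ) (mu j)))⁻¹ * Lam (1 - w - (starRingEnd ℂ) (mu j))) w := by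
    intro j
    obtain ⟨g1, g2⟩ := gr_deriv (hpole j)
    have h3 : HasDerivAt (fun z : ℂ => 1 - z - (starRingEnd ℂ) (mu j)) (-1) w := by
      simpa using ((hasDerivAt_id w).const_sub 1).sub_const ((starRingEnd ℂ) (mu j))
    have h4 := g2.comp w h3
    refine (h4.inv g1).congr_deriv ?_
    simp only [Function.comp]
    field_simp
  have hd2 : ∀ j, HasDerivAt (fun s => (Gammaℝ (s - mu j))⁻¹)
      ((Gammaℝ (w - mu j))⁻¹ * -Lam (w - mu j)) w := by
    intro j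
    have hre : 0 < (w - mu j).re := by simp; linarith [hmu j]
    have g2 := gr_hasDeriv hre
    have g1 := gr_ne hre
    have h3 : HasDerivAt (fun z : ℂ => z - mu j) 1 w := by
      simpa using (hasDerivAt_id w).sub_const (mu j)
    have h4 := g2.comp w h3
    refine (h4.inv g1).congr_deriv ?_
    simp only [Function.comp]
    field_simp
  have hp1 := prod_deriv (f := fun j s => (Gammaℝ (1 - s - (starRingEnd ℂ) (mu j)))⁻¹)
    (g := fun j => Lam (1 - w - (starRingEnd ℂ) (mu j))) hd1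
  have hp2 := prod_deriv (f := fun j s => (Gammaℝ (s - mu j))⁻¹) (g := fun j => -Lam (w - mu j)) hd2
  have hN1 : HasDerivAt (fun z : ℂ => root * (N : ℂ) ^ (1 / 2 - z))
      (root * ((N : ℂ) ^ (1 / 2 - w) * Complex.log N * (-1))) w := by
    have h4 : HasDerivAt (fun z : ℂ => 1 / 2 - z) (-1) w := by
      simpa using (hasDerivAt_id w).const_sub (1 / 2 : ℂ)
    exact (h4.const_cpow (Or.inl hNc)).const_mul root
  have hL := ((hf w).hasDerivAt).mul hp1
  have hR := (hN1.mul ((hh_diff hf) w).hasDerivAt).mul hp2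
  set P : ℂ := ∏ j, (Gammaℝ (1 - w - (starRingEnd ℂ) (mu j)))⁻¹ with hP
  set Q : ℂ := ∏ j, (Gammaℝ (w - mu j))⁻¹ with hQ
  have hP0 : P ≠ 0 := Finset.prod_ne_zero_iff.2 fun j _ => inv_ne_zero (gr_deriv (hpole j)).1
  have hQ0 : Q ≠ 0 := Finset.prod_ne_zero_iff.2 fun j _ =>
    inv_ne_zero (gr_ne (by simp; linarith [hmu j]))
  have hfun : (f * fun z => ∏ j, (fun j s => (Gammaℝ (1 - s - (starRingEnd ℂ) (mu j)))⁻¹) j z) =
      ((fun z : ℂ => root * (N : ℂ) ^ (1 / 2 - z)) * hh f) *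
        fun z => ∏ j, (fun j s => (Gammaℝ (s - mu j))⁻¹) j z := by
    funext s
    exact hfe s
  rw [hfun] at hL
  have heq := hL.unique hR
  have hv := hfe w
  have e0 : (starRingEnd ℂ) (f (1 - (starRingEnd ℂ) w)) = hh f w := rfl
  rw [e0, ← hP, ← hQ] at hv
  simp only [Pi.mul_apply] at heq
  set A : ℂ := root * (N : ℂ) ^ (1 / 2 - w) with hA
  have hA0 : A ≠ 0 := mul_ne_zero hroot0 (by
    rw [Complex.cpow_def_of_ne_zero hNc]; exact Complex.exp_ne_zero _)
  have hh0 : hh f w ≠ 0 := by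
    intro h0
    rw [h0, mul_zero, zero_mul] at hv
    exact mul_ne_zero hfw hP0 hv
  refine ⟨hh0, ?_⟩
  have e1 : root * ((N : ℂ) ^ (1 / 2 - w) * Complex.log N * (-1)) = A * (-Complex.log N) := by
    rw [hA]; ring
  rw [e1, Finset.sum_neg_distrib] at heq
  rw [Finset.sum_add_distrib, natCast_log]
  set S1 : ℂ := ∑ j, Lam (1 - w - (starRingEnd ℂ) (mu j)) with hS1
  set S2 : ℂ := ∑ j, Lam (w - mu j) with hS2
  -- divide by the value
  have e2 : deriv f w / f w + S1 = -Complex.log N + deriv (hh f) w / hh f w - S2 := by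
    have h5 : f w * P * (deriv f w / f w + S1) = deriv f w * P + f w * (P * S1) := by
      field_simp
    have h6 : A * hh f w * Q * (-Complex.log N + deriv (hh f) w / hh f w - S2) =
        (A * (-Complex.log N) * hh f w + A * deriv (hh f) w) * Q + A * hh f w * (Q * -S2) := by
      field_simp
      ring
    have h7 : f w * P * (deriv f w / f w + S1) =
        f w * P * (-Complex.log N + deriv (hh f) w / hh f w - S2) := by
      rw [h5, heq, ← h6, hv]
    exact mul_left_cancel₀ (mul_ne_zero hfw hP0) h7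
  linear_combination -e2

theorem logD_near (m : ℕ) {δ : ℝ} (hδ : 0 < δ) {ρ : ℝ} (hρ : 0 < ρ) (R x1 : ℝ) (hR : 0 ≤ R)
    (hx1 : 0 ≤ x1) :
    ∃ K : ℝ, ∀ (N : ℕ) (mu : Fin m → ℂ) (root : ℂ) (f : ℂ → ℂ) (T : ℝ) (w : ℂ), 0 < N →
      (∀ j, (mu j).re ≤ 1 / 2 - δ) → ‖root‖ = 1 → Differentiable ℂ f →
      (∀ s : ℂ, f s * ∏ j, (Gammaℝ (1 - s - (starRingEnd ℂ) (mu j)))⁻¹ =
        root * (N : ℂ) ^ (1 / 2 - s) * (starRingEnd ℂ) (f (1 - (starRingEnd ℂ) s)) *
          ∏ j, (Gammaℝ (s - mu j))⁻¹) →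
      1 / 2 ≤ w.re → w.re ≤ 1 / 2 + x1 → |w.im - T| ≤ R → f w ≠ 0 →
      (∀ j, ∀ i : ℕ, ρ ≤ ‖(1 - w - (starRingEnd ℂ) (mu j)) / 2 + i‖) →
      hh f w ≠ 0 ∧ ‖deriv (hh f) w / hh f w - Real.log (QL N mu T)‖ ≤
        ‖deriv f w / f w‖ + K := by
  set k : ℕ := ⌈x1⌉₊ + 1 with hk
  obtain ⟨K1, h1⟩ := lam_bd (ρ := δ / 2) (by positivity) 1 (1 / 2 + x1 + R) (by positivity)
  obtain ⟨K2, h2⟩ := lam_bd hρ k (1 / 2 + x1 + R + 1) (by positivity)
  refine ⟨m * (K1 + K2), fun N mu root f T w hN hmu hroot hf hfe h0 h3 h4 hfw hpole => ?_⟩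
  have hmu' : ∀ j, (mu j).re < 1 / 2 := fun j => by linarith [hmu j]
  have hpole' : ∀ j, ∀ i : ℕ, (1 - w - (starRingEnd ℂ) (mu j)) / 2 + i ≠ 0 := by
    intro j i h
    have := hpole j i
    rw [h, norm_zero] at this
    linarith
  obtain ⟨g1, g2⟩ := logD_hh hN hmu' hroot hf hfe h0 hfw hpole'
  refine ⟨g1, ?_⟩
  rw [g2, log_QL hN]
  have hdist := dist_T h0 h3 h4
  have hterm : ∀ j, ‖Lam (w - mu j) + Lam (1 - w - (starRingEnd ℂ) (mu j)) -
      (Real.log (1 + ‖mu j - T * I‖) : ℝ)‖ ≤ K1 + K2 := by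
    intro j
    set n : ℝ := ‖mu j - T * I‖ with hn
    have hre : δ ≤ (w - mu j).re := by simp; linarith [hmu j]
    have k1 := h1 (w - mu j) n (norm_nonneg _) (by
      intro i
      have h5 := re_le_norm ((w - mu j) / 2 + i)
      have e : ((w - mu j) / 2 + i).re = (w - mu j).re / 2 + i := by simp
      rw [e] at h5
      have : (0 : ℝ) ≤ i := Nat.cast_nonneg _
      linarith) (by
      have e : ((w - mu j) / 2 + (1 : ℕ)).re = (w - mu j).re / 2 + 1 := by simp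
      rw [e]; linarith) (by
      have h5 := abs_norm_sub_norm_le (w - mu j) (-(mu j - T * I))
      rw [norm_neg] at h5
      refine h5.trans ?_
      have e : w - mu j - -(mu j - T * I) = w - T * I := by ring
      rw [e]
      exact hdist)
    have k2 := h2 (1 - w - (starRingEnd ℂ) (mu j)) n (norm_nonneg _) (hpole j) (by
      have e : ((1 - w - (starRingEnd ℂ) (mu j)) / 2 + k).re =
          (1 - w.re - (mu j).re) / 2 + k := by simp
      rw [e]
      have h5 : x1 ≤ ⌈x1⌉₊ := Nat.le_ceil x1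
      have h6 : (k : ℝ) = ⌈x1⌉₊ + 1 := by rw [hk]; push_cast; ring
      rw [h6]
      linarith [hmu j]) (by
      have e0 : ‖1 - w - (starRingEnd ℂ) (mu j)‖ = ‖1 - (starRingEnd ℂ) w - mu j‖ := by
        rw [← norm_conj (1 - (starRingEnd ℂ) w - mu j)]
        congr 1
        simp
      rw [e0]
      have h5 := abs_norm_sub_norm_le (1 - (starRingEnd ℂ) w - mu j) (-(mu j - T * I))
      rw [norm_neg] at h5
      refine h5.trans ?_
      have e : 1 - (starRingEnd ℂ) w - mu j - -(mu j - T * I) = 1 - ((starRingEnd ℂ) w + T * I) := by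
        ring
      rw [e]
      refine (norm_sub_le _ _).trans ?_
      have e2 : ‖(starRingEnd ℂ) w + T * I‖ = ‖w - T * I‖ := by
        rw [← norm_conj (w - T * I)]
        congr 1
        simp
      rw [e2, norm_one]
      linarith)
    have e : Lam (w - mu j) + Lam (1 - w - (starRingEnd ℂ) (mu j)) - (Real.log (1 + n) : ℝ) =
        (Lam (w - mu j) - (Real.log (1 + n) / 2 : ℝ)) +
          (Lam (1 - w - (starRingEnd ℂ) (mu j)) - (Real.log (1 + n) / 2 : ℝ)) := by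
      push_cast
      ring
    rw [e]
    exact (norm_add_le _ _).trans (add_le_add k1 k2)
  have e : deriv f w / f w + ((Real.log N : ℝ) : ℂ) +
      ∑ j, (Lam (w - mu j) + Lam (1 - w - (starRingEnd ℂ) (mu j))) -
      ((Real.log N + ∑ j, Real.log (1 + ‖mu j - T * I‖) : ℝ) : ℂ) =
      deriv f w / f w + ∑ j, (Lam (w - mu j) + Lam (1 - w - (starRingEnd ℂ) (mu j)) -
        (Real.log (1 + ‖mu j - T * I‖) : ℝ)) := by
    rw [Finset.sum_sub_distrib]
    push_cast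
    ring
  rw [e]
  refine (norm_add_le _ _).trans (add_le_add le_rfl ?_)
  refine (norm_sum_le _ _).trans ?_
  have h5 := Finset.sum_le_sum (s := Finset.univ) fun j (_ : j ∈ Finset.univ) => hterm j
  rw [Finset.sum_const, Finset.card_univ, Fintype.card_fin, nsmul_eq_mul] at h5
  exact h5

/-- good centres -/
theorem good_centre (m : ℕ) (r : Fin m → ℝ) (x : ℝ) : ∃ i : ℕ, i ≤ m ∧ ∀ (j : Fin m) (n : ℕ),
    1 / (2 * ((m : ℝ) + 1)) ≤ |x + i / (m + 1) - (r j + 2 * n)| := by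
  by_contra hcon
  push Not at hcon
  have hm : (0 : ℝ) < m + 1 := by positivity
  choose J n0 hn using hcon
  obtain ⟨i, i', hii, hJJ⟩ := Fintype.exists_ne_map_eq_of_card_lt
    (fun i : Fin (m + 1) => J i (Nat.le_of_lt_succ i.2)) (by simp)
  have hi : (i : ℕ) ≤ m := Nat.le_of_lt_succ i.2
  have hi' : (i' : ℕ) ≤ m := Nat.le_of_lt_succ i'.2
  have h1 := hn i hi
  have h2 := hn i' hi'
  rw [hJJ] at h1
  set n1 : ℕ := n0 i hi with hn1
  set n2 : ℕ := n0 i' hi' with hn2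
  have h1' := abs_lt.1 h1
  have h2' := abs_lt.1 h2
  have e0 : 1 / (2 * ((m : ℝ) + 1)) = 1 / (m + 1) / 2 := by field_simp
  rw [e0] at h1' h2'
  set t : ℝ := 1 / ((m : ℝ) + 1) with ht
  have ht0 : 0 < t := by positivity
  have ht1 : t ≤ 1 := by
    rw [ht, div_le_one hm]
    have : (0 : ℝ) ≤ m := Nat.cast_nonneg _
    linarith
  have htm : t * (m + 1) = 1 := by rw [ht]; field_simp
  have e1 : ((i : ℕ) : ℝ) / (m + 1) = i * t := by rw [ht]; ring
  have e2 : ((i' : ℕ) : ℝ) / (m + 1) = i' * t := by rw [ht]; ring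
  rw [e1] at h1'
  rw [e2] at h2'
  have him : ((i : ℕ) : ℝ) ≤ m := by exact_mod_cast hi
  have him' : ((i' : ℕ) : ℝ) ≤ m := by exact_mod_cast hi'
  have hi0 : (0 : ℝ) ≤ ((i : ℕ) : ℝ) := Nat.cast_nonneg _
  have hi0' : (0 : ℝ) ≤ ((i' : ℕ) : ℝ) := Nat.cast_nonneg _
  have b1 : ((i : ℕ) : ℝ) * t ≤ 1 - t := by nlinarith
  have b2 : ((i' : ℕ) : ℝ) * t ≤ 1 - t := by nlinarith
  have b3 : 0 ≤ ((i : ℕ) : ℝ) * t := by positivity
  have b4 : 0 ≤ ((i' : ℕ) : ℝ) * t := by positivity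
  -- compare the two integers
  rcases lt_trichotomy n1 n2 with h3 | h3 | h3
  · have h4 : (n1 : ℝ) + 1 ≤ n2 := by exact_mod_cast h3
    linarith
  · rw [h3] at h1'
    have hne : (i : ℕ) ≠ i' := fun h => hii (Fin.ext h)
    rcases lt_or_gt_of_ne hne with h5 | h5
    · have h6 : ((i : ℕ) : ℝ) + 1 ≤ i' := by exact_mod_cast h5
      have h7 : ((i : ℕ) : ℝ) * t + t ≤ i' * t := by nlinarith
      linarith
    · have h6 : ((i' : ℕ) : ℝ) + 1 ≤ i := by exact_mod_cast h5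
      have h7 : ((i' : ℕ) : ℝ) * t + t ≤ i * t := by nlinarith
      linarith
  · have h4 : (n2 : ℝ) + 1 ≤ n1 := by exact_mod_cast h3
    linarith

end Pool.Agent.N799.GL
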