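import Pool.Agent.N799.GL.Trans

/-!
# The Grand Lindelöf Hypothesis and the left zeros of differential polynomials
-/

set_option autoImplicit false

open Complex Metric Set Filter Topology Polynomial

namespace Pool.Agent.N799.GL

open Pool.Agent.N799.SP Pool.Agent.N799.LH
open H855R2.SF Pool.Agent.W188.GLR

section abs

variable {α : Type*} {f : α → ℂ → ℂ} {ℓ : α → ℝ} {κ δ g : ℝ} {M : ℕ}

/-- few zeros of one differential polynomial give few zeros of all of them -/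
theorem compare (H : Fam f ℓ κ δ g M) (l l' : List ℂ) (B : ℝ) (hB : κ - 1 < B) (R x ε : ℝ)
    (hε : 0 < ε) : ∃ η A L : ℝ, 0 < η ∧ ∀ a, L ≤ ℓ a →
      ZL (TT l (hh (f a))) {w | 1 / 2 + η ≤ w.re ∧ w.re ≤ 1 + B ∧ |w.im| ≤ A} (η * ℓ a) →
      ZL (TT l' (hh (f a))) {w | 1 / 2 + ε ≤ w.re ∧ w.re ≤ x ∧ |w.im| ≤ R} (ε * ℓ a) := by
  obtain ⟨η1, A1, L1, hη1, h1⟩ := converse H l' R x ε hε
  obtain ⟨η2, A2, L2, hη2, h2⟩ := PP_all H l B hB η1 hη1 A1
  refine ⟨η2, A2, max L1 L2, hη2, fun a ha hZ => h1 a ((le_max_left _ _).trans ha) fun y hy => ?_⟩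
  exact h2 a ((le_max_right _ _).trans ha) hZ ⟨1 / 2, y⟩ le_rfl hy

end abs

variable {m : ℕ} {ι : Type} {N : ι → ℕ} {mu : ι → Fin m → ℂ} {f : ι → ℂ → ℂ} {X : ι → ℝ → ℝ} {δ : ℝ}

/-- the logarithms of the two conductors -/
theorem la_ge (H : GLData m N mu f X δ) (i : ι) (t : ℝ) :
    Real.log (X i t) ≤ (m + 2) * la N mu (i, t) :=
  (Real.log_le_log (by linarith [H.X1 i t]) (H.Xle i t)).trans (log_X_le H i t)

theorem la_le (H : GLData m N mu f X δ) (i : ι) (t : ℝ) (h : Real.log 2 ≤ Real.log (X i t)) :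
    la N mu (i, t) ≤ 2 * m * Real.log (X i t) := by
  have hm : (1 : ℝ) ≤ m := by exact_mod_cast H.hm
  have h1 := la_shift (H.N_pos i) (mu i) 0 t |t| le_rfl
  rw [zero_add] at h1
  have e0 : QL (N i) (mu i) 0 = N i * ∏ j, (1 + ‖mu i j‖) := by
    unfold QL; simp
  rw [e0] at h1
  have hC := H.C1 i
  have ht : 0 < 1 + |t| := by positivity
  have h2 : Real.log ((1 + |t|) * (N i * ∏ j, (1 + ‖mu i j‖))) ≤ Real.log (2 * X i t) :=
    Real.log_le_log (mul_pos ht (zero_lt_one.trans_le hC)) (H.Xge i t)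
  rw [Real.log_mul ht.ne' (zero_lt_one.trans_le hC).ne',
    Real.log_mul (two_ne_zero' ℝ) (zero_lt_one.trans_le (H.X1 i t)).ne'] at h2
  have h3 : 0 ≤ Real.log (N i * ∏ j, (1 + ‖mu i j‖)) := Real.log_nonneg hC
  have h4 : 0 ≤ Real.log (1 + |t|) := Real.log_nonneg (by linarith [abs_nonneg t])
  show Real.log (QL (N i) (mu i) t) ≤ _
  calc Real.log (QL (N i) (mu i) t) ≤ m * Real.log (1 + |t|) + Real.log (N i * ∏ j, (1 + ‖mu i j‖)) :=
        h1
    _ ≤ m * Real.log (1 + |t|) + m * Real.log (N i * ∏ j, (1 + ‖mu i j‖)) := by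
        have := mul_le_mul_of_nonneg_right hm h3
        linarith
    _ = m * (Real.log (1 + |t|) + Real.log (N i * ∏ j, (1 + ‖mu i j‖))) := by ring
    _ ≤ m * (2 * Real.log (X i t)) := by
        apply mul_le_mul_of_nonneg_left _ (by linarith)
        linarith
    _ = _ := by ring

theorem X_exp (H : GLData m N mu f X δ) (i : ι) (t ε : ℝ) :
    X i t ^ ε = Real.exp (ε * Real.log (X i t)) := by
  rw [Real.rpow_def_of_pos (by linarith [H.X1 i t]), mul_comm]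

theorem pt_eq (t : ℝ) : (1 / 2 + t * I : ℂ) = ⟨1 / 2, t⟩ := by
  apply Complex.ext <;> simp

theorem fa_pt (f : ι → ℂ → ℂ) (i : ι) (t y : ℝ) :
    fa f (i, t) ⟨1 / 2, y⟩ = f i (1 / 2 + ((t + y : ℝ) : ℂ) * I) := by
  unfold fa
  congr 1
  apply Complex.ext
  · simp
  · simp [add_comm]

/-- few left zeros imply small values -/
theorem few_small' (H : GLData m N mu f X δ) {κ b : ℝ} (hκ : 1 ≤ κ) (hb : 0 < b)
    (hfar : ∀ i (s : ℂ), κ ≤ s.re → 1 / b ≤ ‖f i s‖ ∧ ‖f i s‖ ≤ b) (p : ℂ[X]) (hp : p ≠ 0)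
    (B : ℝ) (hB : κ - 1 < B) (ε : ℝ) (hε : 0 < ε) : ∃ η A X₀ : ℝ, 0 < η ∧ ∀ (i : ι) (t : ℝ),
      X₀ ≤ X i t →
      ZL (DP p (f i)) {s | -B ≤ s.re ∧ s.re ≤ 1 / 2 - η ∧ |s.im - t| ≤ A} (η * Real.log (X i t)) →
      ‖f i (1 / 2 + t * I)‖ ≤ X i t ^ ε := by
  have hm : (1 : ℝ) ≤ m := by exact_mod_cast H.hm
  have hm0 : (0 : ℝ) < m := by linarith
  obtain ⟨η, A, L, hη, h⟩ := PP_all (fam_of H hκ hb hfar) (rlist p.roots.toList) B hB (ε / (2 * m))
    (by positivity) 0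
  refine ⟨η / (m + 2), A, Real.exp (max (Real.log 2) ((m + 2) * L)), by positivity, ?_⟩
  intro i t hX hZ
  have hXp : 0 < X i t := by linarith [H.X1 i t]
  have hlog : max (Real.log 2) ((m + 2) * L) ≤ Real.log (X i t) := by
    rwa [Real.le_log_iff_exp_le hXp]
  have h1 := la_ge H i t
  have h2 := la_le H i t ((le_max_left _ _).trans hlog)
  have hL : L ≤ la N mu (i, t) := by
    have h3 := ((le_max_right _ _).trans hlog).trans h1
    exact le_of_mul_le_mul_left h3 (by positivity)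
  have h4 := h (i, t) hL (ZL_to p hp H.entire (i, t)
    (V := {s | -B ≤ s.re ∧ s.re ≤ 1 / 2 - η / (m + 2) ∧ |s.im - t| ≤ A}) (by
      rintro w ⟨k1, k2, k3⟩
      have e1 : (w + ((i, t) : ι × ℝ).2 * I).re = w.re := by simp
      have e2 : (w + ((i, t) : ι × ℝ).2 * I).im = w.im + t := by simp
      have e3 : η / (m + 2) ≤ η := div_le_self hη.le (by linarith)
      refine ⟨?_, ?_, ?_⟩
      · rw [rl_re, e1]; linarith
      · rw [rl_re, e1]; linarith
      · rw [rl_im, e2, add_sub_cancel_right]; exact k3) (hZ.mono Subset.rfl (by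
      calc η / (m + 2) * Real.log (X i t) ≤ η / (m + 2) * ((m + 2) * la N mu (i, t)) := by gcongr
        _ = η * la N mu (i, t) := by field_simp))) ⟨1 / 2, 0⟩ le_rfl (by simp)
  rw [fa_pt, add_zero] at h4
  rw [X_exp H]
  refine h4.trans (Real.exp_le_exp.2 ?_)
  calc ε / (2 * m) * la N mu (i, t) ≤ ε / (2 * m) * (2 * m * Real.log (X i t)) := by gcongr
    _ = ε * Real.log (X i t) := by field_simp

/-- small values imply few left zeros -/
theorem small_few' (H : GLData m N mu f X δ) {κ b : ℝ} (hκ : 1 ≤ κ) (hb : 0 < b)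
    (hfar : ∀ i (s : ℂ), κ ≤ s.re → 1 / b ≤ ‖f i s‖ ∧ ‖f i s‖ ≤ b) (p : ℂ[X]) (hp : p ≠ 0)
    (B ε : ℝ) (hε : 0 < ε) : ∃ η A X₀ : ℝ, 0 < η ∧ ∀ (i : ι) (t : ℝ), X₀ ≤ X i t →
      (∀ y : ℝ, |y - t| ≤ A → ‖f i (1 / 2 + y * I)‖ ≤ X i t ^ η) →
      ZL (DP p (f i)) {s | -B ≤ s.re ∧ s.re ≤ 1 / 2 - ε ∧ |s.im - t| ≤ 1}
        (ε * Real.log (X i t)) := by
  have hm : (1 : ℝ) ≤ m := by exact_mod_cast H.hm
  have hm0 : (0 : ℝ) < m := by linarith
  obtain ⟨η, A, L, hη, h⟩ := converse (fam_of H hκ hb hfar) (rlist p.roots.toList) 1 (1 + B)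
    (ε / (2 * m)) (by positivity)
  refine ⟨η / (m + 2), A, Real.exp (max (Real.log 2) ((m + 2) * L)), by positivity, ?_⟩
  intro i t hX hs
  have hXp : 0 < X i t := by linarith [H.X1 i t]
  have hlog : max (Real.log 2) ((m + 2) * L) ≤ Real.log (X i t) := by
    rwa [Real.le_log_iff_exp_le hXp]
  have h1 := la_ge H i t
  have h2 := la_le H i t ((le_max_left _ _).trans hlog)
  have hL : L ≤ la N mu (i, t) := by
    have h3 := ((le_max_right _ _).trans hlog).trans h1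
    exact le_of_mul_le_mul_left h3 (by positivity)
  have h4 := h (i, t) hL (by
    intro y hy
    rw [fa_pt]
    have h5 := hs (t + y) (by rw [add_sub_cancel_left]; exact hy)
    rw [X_exp H] at h5
    refine h5.trans (Real.exp_le_exp.2 ?_)
    calc η / (m + 2) * Real.log (X i t) ≤ η / (m + 2) * ((m + 2) * la N mu (i, t)) := by gcongr
      _ = η * la N mu (i, t) := by field_simp)
  refine (ZL_from p hp H.entire (i, t) (U := {s | -B ≤ s.re ∧ s.re ≤ 1 / 2 - ε ∧ |s.im - t| ≤ 1})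
    ?_ h4).mono Subset.rfl ?_
  · rintro s ⟨k1, k2, k3⟩
    have e1 : (rl s - ((i, t) : ι × ℝ).2 * I).re = 1 - s.re := by simp [rl_re]
    have e2 : (rl s - ((i, t) : ι × ℝ).2 * I).im = s.im - t := by simp [rl_im]
    have e3 : ε / (2 * m) ≤ ε := div_le_self hε.le (by linarith)
    refine ⟨?_, ?_, ?_⟩
    · rw [e1]; linarith
    · rw [e1]; linarith
    · rw [e2]; exact k3
  · calc ε / (2 * m) * la N mu (i, t) ≤ ε / (2 * m) * (2 * m * Real.log (X i t)) := by gcongr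
      _ = ε * Real.log (X i t) := by field_simp

/-- comparison of the left zeros of two differential polynomials -/
theorem compare' (H : GLData m N mu f X δ) {κ b : ℝ} (hκ : 1 ≤ κ) (hb : 0 < b)
    (hfar : ∀ i (s : ℂ), κ ≤ s.re → 1 / b ≤ ‖f i s‖ ∧ ‖f i s‖ ≤ b) (p q : ℂ[X]) (hp : p ≠ 0)
    (hq : q ≠ 0) (B B' : ℝ) (hB : κ - 1 < B) (ε : ℝ) (hε : 0 < ε) : ∃ η A X₀ : ℝ, 0 < η ∧
      ∀ (i : ι) (t : ℝ), X₀ ≤ X i t →
      ZL (DP p (f i)) {s | -B ≤ s.re ∧ s.re ≤ 1 / 2 - η ∧ |s.im - t| ≤ A} (η * Real.log (X i t)) →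
      ZL (DP q (f i)) {s | -B' ≤ s.re ∧ s.re ≤ 1 / 2 - ε ∧ |s.im - t| ≤ 1}
        (ε * Real.log (X i t)) := by
  have hm : (1 : ℝ) ≤ m := by exact_mod_cast H.hm
  have hm0 : (0 : ℝ) < m := by linarith
  obtain ⟨η, A, L, hη, h⟩ := compare (fam_of H hκ hb hfar) (rlist p.roots.toList)
    (rlist q.roots.toList) B hB 1 (1 + B') (ε / (2 * m)) (by positivity)
  refine ⟨η / (m + 2), A, Real.exp (max (Real.log 2) ((m + 2) * L)), by positivity, ?_⟩
  intro i t hX hZ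
  have hXp : 0 < X i t := by linarith [H.X1 i t]
  have hlog : max (Real.log 2) ((m + 2) * L) ≤ Real.log (X i t) := by
    rwa [Real.le_log_iff_exp_le hXp]
  have h1 := la_ge H i t
  have h2 := la_le H i t ((le_max_left _ _).trans hlog)
  have hL : L ≤ la N mu (i, t) := by
    have h3 := ((le_max_right _ _).trans hlog).trans h1
    exact le_of_mul_le_mul_left h3 (by positivity)
  have h4 := h (i, t) hL (ZL_to p hp H.entire (i, t)
    (V := {s | -B ≤ s.re ∧ s.re ≤ 1 / 2 - η / (m + 2) ∧ |s.im - t| ≤ A}) (by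
      rintro w ⟨k1, k2, k3⟩
      have e1 : (w + ((i, t) : ι × ℝ).2 * I).re = w.re := by simp
      have e2 : (w + ((i, t) : ι × ℝ).2 * I).im = w.im + t := by simp
      have e3 : η / (m + 2) ≤ η := div_le_self hη.le (by linarith)
      refine ⟨?_, ?_, ?_⟩
      · rw [rl_re, e1]; linarith
      · rw [rl_re, e1]; linarith
      · rw [rl_im, e2, add_sub_cancel_right]; exact k3) (hZ.mono Subset.rfl (by
      calc η / (m + 2) * Real.log (X i t) ≤ η / (m + 2) * ((m + 2) * la N mu (i, t)) := by gcongr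
        _ = η * la N mu (i, t) := by field_simp)))
  refine (ZL_from q hq H.entire (i, t) (U := {s | -B' ≤ s.re ∧ s.re ≤ 1 / 2 - ε ∧ |s.im - t| ≤ 1})
    ?_ h4).mono Subset.rfl ?_
  · rintro s ⟨k1, k2, k3⟩
    have e1 : (rl s - ((i, t) : ι × ℝ).2 * I).re = 1 - s.re := by simp [rl_re]
    have e2 : (rl s - ((i, t) : ι × ℝ).2 * I).im = s.im - t := by simp [rl_im]
    have e3 : ε / (2 * m) ≤ ε := div_le_self hε.le (by linarith)
    refine ⟨?_, ?_, ?_⟩
    · rw [e1]; linarith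
    · rw [e1]; linarith
    · rw [e2]; exact k3
  · calc ε / (2 * m) * la N mu (i, t) ≤ ε / (2 * m) * (2 * m * Real.log (X i t)) := by gcongr
      _ = ε * Real.log (X i t) := by field_simp

/-- The Lindelöf hypothesis for the family -/
def Lind (f : ι → ℂ → ℂ) (X : ι → ℝ → ℝ) : Prop := ∀ ε : ℝ, 0 < ε → ∃ C : ℝ, ∀ (i : ι) (t : ℝ),
  ‖f i (1 / 2 + t * I)‖ ≤ C * X i t ^ ε

theorem small_of_Lind (H : GLData m N mu f X δ) (h : Lind f X) (η A : ℝ) (hη : 0 < η) :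
    ∃ X₀ : ℝ, ∀ (i : ι) (t : ℝ), X₀ ≤ X i t → ∀ y : ℝ, |y - t| ≤ A →
      ‖f i (1 / 2 + y * I)‖ ≤ X i t ^ η := by
  obtain ⟨C, hC⟩ := h (η / 2) (by positivity)
  refine ⟨Real.exp (2 / η * (Real.log (max C 1) + η / 2 * Real.log (1 + |A|))), fun i t hX y hy => ?_⟩
  have hXp : 0 < X i t := by linarith [H.X1 i t]
  rw [← Real.le_log_iff_exp_le hXp] at hX
  have h1 := hC i y
  have h2 := H.Xsh i t (y - t)
  rw [show t + (y - t) = y by ring] at h2
  have hA : |y - t| ≤ |A| := hy.trans (le_abs_self A)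
  have h3 : X i y ≤ (1 + |A|) * X i t := by
    refine h2.trans ?_
    gcongr
  have h4 : Real.log (X i y) ≤ Real.log (1 + |A|) + Real.log (X i t) := by
    have h5 := Real.log_le_log (by linarith [H.X1 i y]) h3
    rwa [Real.log_mul (by positivity) hXp.ne'] at h5
  have hM : 0 < max C 1 := lt_of_lt_of_le one_pos (le_max_right _ _)
  rw [X_exp H] at h1
  rw [X_exp H]
  refine h1.trans ?_
  calc C * Real.exp (η / 2 * Real.log (X i y)) ≤
        max C 1 * Real.exp (η / 2 * (Real.log (1 + |A|) + Real.log (X i t))) := by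
        gcongr
        exact le_max_left _ _
    _ = Real.exp (Real.log (max C 1) + η / 2 * (Real.log (1 + |A|) + Real.log (X i t))) := by
        rw [Real.exp_add, Real.exp_log hM]
    _ ≤ _ := by
        apply Real.exp_le_exp.2
        have h5 : Real.log (max C 1) + η / 2 * Real.log (1 + |A|) ≤ η / 2 * Real.log (X i t) := by
          calc Real.log (max C 1) + η / 2 * Real.log (1 + |A|)
              = η / 2 * (2 / η * (Real.log (max C 1) + η / 2 * Real.log (1 + |A|))) := by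
                field_simp
            _ ≤ _ := by gcongr
        linarith

theorem Lind_of (H : GLData m N mu f X δ) (h : ∀ ε : ℝ, 0 < ε → ∃ X₀ : ℝ, ∀ (i : ι) (t : ℝ),
    X₀ ≤ X i t → ‖f i (1 / 2 + t * I)‖ ≤ X i t ^ ε) : Lind f X := by
  intro ε hε
  obtain ⟨X₀, h1⟩ := h ε hε
  obtain ⟨C, hC, hcr⟩ := Pool.Agent.H983R4.GL.crude H.afam
  have hX0 : X₀ ≤ max X₀ 1 := le_max_left _ _
  have hX1 : 1 ≤ max X₀ 1 := le_max_right _ _
  set Y : ℝ := max X₀ 1 with hY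
  refine ⟨1 + C * (2 * Y) ^ (m : ℝ), fun i t => ?_⟩
  have hX := H.X1 i t
  have hp : 1 ≤ X i t ^ ε := Real.one_le_rpow hX hε.le
  have hC0 : 0 ≤ C * (2 * Y) ^ (m : ℝ) := by positivity
  rcases le_or_gt X₀ (X i t) with h2 | h2
  · have h3 := h1 i t h2
    nlinarith
  · have h3 := hcr i (1 / 2 + t * I) (by simp; norm_num)
    have e : ((1 / 2 + t * I : ℂ)).im = t := by simp
    rw [e] at h3
    have h4 : ((1 + |t|) * (N i * ∏ j, (1 + ‖mu i j‖))) ^ (m : ℝ) ≤ (2 * Y) ^ (m : ℝ) := by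
      have h5 := H.Xge i t
      have h6 := H.C1 i
      refine Real.rpow_le_rpow ?_ (by linarith) (by positivity)
      have := abs_nonneg t
      positivity
    have h5 : C * ((1 + |t|) * (N i * ∏ j, (1 + ‖mu i j‖))) ^ (m : ℝ) ≤ C * (2 * Y) ^ (m : ℝ) := by
      gcongr
    nlinarith

/-- unit windows and long windows -/
theorem windows (H : GLData m N mu f X δ) {F : ι → ℂ → ℂ} {P : ℝ → Prop} (η A : ℝ) (hη : 0 < η)
    (h : ∀ ε : ℝ, 0 < ε → ∃ X₀ : ℝ, ∀ (i : ι) (T : ℝ), X₀ ≤ X i T →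
      ZL (F i) {s | P s.re ∧ T ≤ s.im ∧ s.im ≤ T + 1} (ε * Real.log (X i T))) :
    ∃ X₀ : ℝ, ∀ (i : ι) (t : ℝ), X₀ ≤ X i t →
      ZL (F i) {s | P s.re ∧ |s.im - t| ≤ A} (η * Real.log (X i t)) := by
  obtain ⟨n, hn⟩ := exists_nat_gt (2 * |A| + 1)
  have hA0 := abs_nonneg A
  have hn0 : (0 : ℝ) < n := by linarith
  obtain ⟨X₁, hX₁⟩ := h (η / (2 * n)) (by positivity)
  set D : ℝ := 1 + |A| + n with hD
  have hD1 : 1 ≤ D := by linarith
  refine ⟨max (D * max X₁ 1) D, fun i t hX => ?_⟩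
  have hX0 : 0 < X i t := by linarith [H.X1 i t]
  have c1 : D * max X₁ 1 ≤ X i t := (le_max_left _ _).trans hX
  have c2 : D ≤ X i t := (le_max_right _ _).trans hX
  have hk : ∀ k < n, ZL (F i) {s | P s.re ∧ t - |A| + k ≤ s.im ∧ s.im ≤ t - |A| + k + 1}
      (η / (2 * n) * (2 * Real.log (X i t))) := by
    intro k hk
    have hk' : (k : ℝ) ≤ n := by exact_mod_cast hk.le
    have hk0 : (0 : ℝ) ≤ k := Nat.cast_nonneg k
    have hab : |(-|A| + k : ℝ)| ≤ |A| + n := by rw [abs_le]; constructor <;> linarith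
    have e0 : t - |A| + k = t + (-|A| + k) := by ring
    have h1 : X i (t - |A| + k) ≤ D * X i t := by
      rw [e0]
      refine (H.Xsh i t (-|A| + k)).trans ?_
      gcongr
      linarith
    have h2 : X i t ≤ D * X i (t - |A| + k) := by
      have h3 := H.Xsh i (t - |A| + k) (-(-|A| + k))
      have e1 : t - |A| + k + -(-|A| + k) = t := by ring
      rw [e1, abs_neg] at h3
      refine h3.trans ?_
      have := H.X1 i (t - |A| + k)
      gcongr
      linarith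
    have h3 : X₁ ≤ X i (t - |A| + k) := by
      have h4 : D * max X₁ 1 ≤ D * X i (t - |A| + k) := c1.trans h2
      exact (le_max_left _ _).trans (le_of_mul_le_mul_left h4 (by linarith))
    have hp : 0 < X i (t - |A| + k) := by linarith [H.X1 i (t - |A| + k)]
    refine (hX₁ i (t - |A| + k) h3).mono Subset.rfl ?_
    gcongr
    have h5 : X i (t - |A| + k) ≤ X i t * X i t := h1.trans (by gcongr)
    have h6 := Real.log_le_log hp h5
    rw [Real.log_mul hX0.ne' hX0.ne'] at h6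
    linarith
  refine (ZL.iUnion n hk).mono ?_ (le_of_eq (by field_simp))
  rintro z ⟨hz1, hz2⟩
  have hz3 := abs_le.1 (hz2.trans (le_abs_self A))
  set k : ℕ := ⌊z.im - (t - |A|)⌋₊ with hkd
  have hk1 := Nat.floor_le (show 0 ≤ z.im - (t - |A|) by linarith)
  have hk2 := Nat.lt_floor_add_one (z.im - (t - |A|))
  rw [← hkd] at hk1 hk2
  have hkn : k < n := by
    have : (k : ℝ) < n := by linarith
    exact_mod_cast this
  simp only [mem_iUnion]
  exact ⟨k, hkn, hz1, by linarith, by linarith⟩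

/-- the criterion -/
theorem Lind_iff (H : GLData m N mu f X δ) {κ b : ℝ} (hκ : 1 ≤ κ) (hb : 0 < b)
    (hfar : ∀ i (s : ℂ), κ ≤ s.re → 1 / b ≤ ‖f i s‖ ∧ ‖f i s‖ ≤ b) (p : ℂ[X]) (hp : p ≠ 0)
    (B : ℝ) (hB : κ - 1 < B) : Lind f X ↔ ∀ δ' : ℝ, 0 < δ' → ∀ ε : ℝ, 0 < ε → ∃ X₀ : ℝ,
      ∀ (i : ι) (T : ℝ), X₀ ≤ X i T →
        ZL (DP p (f i)) {s | -B ≤ s.re ∧ s.re ≤ 1 / 2 - δ' ∧ T ≤ s.im ∧ s.im ≤ T + 1}
          (ε * Real.log (X i T)) := by
  constructor
  · intro h δ' hδ' ε hε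
    obtain ⟨η, A, X₁, hη, h1⟩ := small_few' H hκ hb hfar p hp B (min δ' ε) (by positivity)
    obtain ⟨X₂, h2⟩ := small_of_Lind H h η A hη
    refine ⟨max X₁ X₂, fun i T hX => ?_⟩
    have hlog : 0 ≤ Real.log (X i T) := Real.log_nonneg (H.X1 i T)
    refine (h1 i T ((le_max_left _ _).trans hX) (h2 i T ((le_max_right _ _).trans hX))).mono ?_
      (by gcongr; exact min_le_right _ _)
    rintro s ⟨g1, g2, g3, g4⟩
    have hm : min δ' ε ≤ δ' := min_le_left _ _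
    refine ⟨g1, by linarith, ?_⟩
    rw [abs_le]; constructor <;> linarith
  · intro h
    apply Lind_of H
    intro ε hε
    obtain ⟨η, A, X₁, hη, h1⟩ := few_small' H hκ hb hfar p hp B hB ε hε
    obtain ⟨X₂, h2⟩ := windows H (F := fun i => DP p (f i)) (P := fun x => -B ≤ x ∧ x ≤ 1 / 2 - η)
      η A hη (fun ε' hε' => by
        obtain ⟨X₃, h3⟩ := h η hη ε' hε'
        refine ⟨X₃, fun i T hX => (h3 i T hX).mono ?_ le_rfl⟩
        rintro s ⟨⟨g1, g2⟩, g3, g4⟩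
        exact ⟨g1, g2, g3, g4⟩)
    refine ⟨max X₁ X₂, fun i t hX => h1 i t ((le_max_left _ _).trans hX)
      ((h2 i t ((le_max_right _ _).trans hX)).mono ?_ le_rfl)⟩
    rintro s ⟨g1, g2, g3⟩
    exact ⟨⟨g1, g2⟩, g3⟩

/-! ### Dirichlet characters -/

theorem dir_far {κ : ℝ} (hκ : 1 < κ) : ∃ b : ℝ, 0 < b ∧ ∀ (q : ℕ) [NeZero q]
    (χ : DirichletCharacter ℂ q) (s : ℂ), κ ≤ s.re →
      1 / b ≤ ‖DirichletCharacter.LFunction χ s‖ ∧ ‖DirichletCharacter.LFunction χ s‖ ≤ b := by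
  have hsum : Summable (fun n : ℕ => 1 / (n : ℝ) ^ κ) := Real.summable_one_div_nat_rpow.2 hκ
  have hb1 : 1 ≤ ∑' n : ℕ, 1 / (n : ℝ) ^ κ := by
    have h := hsum.le_tsum 1 (fun n _ => by positivity)
    simpa using h
  refine ⟨∑' n : ℕ, 1 / (n : ℝ) ^ κ, by linarith, fun q _ χ s hs => ?_⟩
  set b : ℝ := ∑' n : ℕ, 1 / (n : ℝ) ^ κ with hb
  have hs1 : 1 < s.re := by linarith
  have hgen : ∀ (g : ℕ → ℂ), (∀ n, ‖g n‖ ≤ 1) → ‖LSeries g s‖ ≤ b := by
    intro g hg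
    unfold LSeries
    refine tsum_of_norm_bounded hsum.hasSum fun n => ?_
    rcases Nat.eq_zero_or_pos n with h0 | h0
    · subst h0
      simp only [LSeries.term_zero, norm_zero]
      positivity
    · rw [LSeries.term_of_ne_zero h0.ne', norm_div, Complex.norm_natCast_cpow_of_pos h0]
      have hn : (1 : ℝ) ≤ n := by exact_mod_cast h0
      gcongr
      · exact hg n
  have h1 := DirichletCharacter.LFunction_eq_LSeries χ hs1
  have hup : ‖DirichletCharacter.LFunction χ s‖ ≤ b := by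
    rw [h1]
    exact hgen _ fun n => χ.norm_le_one n
  refine ⟨?_, hup⟩
  have h2 := DirichletCharacter.LSeries.mul_mu_eq_one χ hs1
  have h3 := congrArg norm h2
  rw [norm_mul, norm_one, ← h1] at h3
  have h4 := hgen _ (fun n => show ‖((fun n : ℕ => χ n) * (fun n : ℕ => ((ArithmeticFunction.moebius n : ℤ) : ℂ))) n‖ ≤ 1 by
    rw [Pi.mul_apply, norm_mul]
    have k1 : ‖χ n‖ ≤ 1 := χ.norm_le_one n
    have k2 : ‖((ArithmeticFunction.moebius n : ℤ) : ℂ)‖ ≤ 1 := by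
      rw [Complex.norm_intCast]
      have := ArithmeticFunction.abs_moebius_le_one (n := n)
      exact_mod_cast this
    calc ‖χ n‖ * ‖((ArithmeticFunction.moebius n : ℤ) : ℂ)‖ ≤ 1 * 1 := by gcongr
      _ = 1 := one_mul 1)
  rw [div_le_iff₀ (by linarith)]
  calc (1 : ℝ) = ‖DirichletCharacter.LFunction χ s‖ * _ := h3.symm
    _ ≤ _ := by
      gcongr

end Pool.Agent.N799.GL
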