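import Pool.Agent.N799.GL.Inst
import Pool.Agent.N799.LH.Transfer

/-!
# Constant coefficient differential polynomials of an entire function and of its reflection
-/

set_option autoImplicit false

open Complex Metric Set Filter Topology Polynomial

namespace Pool.Agent.N799.GL

open Pool.Agent.N799.SP Pool.Agent.N799.LH

theorem TT_shift (l : List ℂ) : ∀ (f : ℂ → ℂ) (c : ℂ), TT l (fun s => f (s + c)) =
    fun w => TT l f (w + c) := by
  induction l with
  | nil => intro f c; rfl
  | cons a l ih =>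
    intro f c
    simp only [TT_cons]
    have h : T1 a (fun s => f (s + c)) = fun s => T1 a f (s + c) := by
      funext s
      simp only [T1]
      rw [deriv_comp_add_const]
    rw [h, ih]

theorem TT_rl' (l : List ℂ) (f : ℂ → ℂ) (w : ℂ) : TT l f (rl w) =
    (starRingEnd ℂ) ((-1) ^ l.length * TT (rlist l) (hh f) w) := by
  unfold rl rlist
  rw [TT_conj, TT_refl, List.length_map]
  congr 3
  funext z
  unfold hh
  rw [map_sub, map_one]

theorem order_rl' (l : List ℂ) {f : ℂ → ℂ} (hf : Differentiable ℂ f) (w : ℂ) :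
    analyticOrderNatAt (TT (rlist l) (hh f)) w = analyticOrderNatAt (TT l f) (rl w) := by
  have han : AnalyticAt ℂ (TT l f) (rl w) := (TT_entire l hf).analyticAt _
  set g : ℂ → ℂ := fun z => (starRingEnd ℂ) (TT l f ((starRingEnd ℂ) z)) with hg
  have h1 : analyticOrderAt g (1 - w) = analyticOrderAt (TT l f) (rl w) := order_star han
  have h2 := order_affine g 1 (R := -1) (by norm_num) w
  have e1 : (1 : ℂ) + -1 * w = 1 - w := by ring
  rw [e1] at h2
  have h3 : (fun z : ℂ => g (1 + -1 * z)) = fun z => (-1) ^ l.length * TT (rlist l) (hh f) z := by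
    funext z
    have e2 : (1 : ℂ) + -1 * z = 1 - z := by ring
    rw [e2]
    have := TT_rl' l f z
    unfold rl at this
    simp only [hg]
    rw [this, Complex.conj_conj]
  rw [h3] at h2
  have h4 : analyticOrderNatAt (fun z => (-1) ^ l.length * TT (rlist l) (hh f) z) w =
      analyticOrderNatAt (TT (rlist l) (hh f)) w := by
    have hFan : AnalyticAt ℂ (TT (rlist l) (hh f)) w := (TT_entire _ (hh_diff hf)).analyticAt _
    have h5 := order_mul_exp hFan (g := fun _ => (-1 : ℂ) ^ l.length) analyticAt_const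
      (pow_ne_zero _ (by norm_num))
    rw [← h5]
    congr 1
    funext z
    ring
  rw [h4] at h2
  rw [h2]
  unfold analyticOrderNatAt
  rw [h1]

theorem zero_rl' (l : List ℂ) (f : ℂ → ℂ) (w : ℂ) :
    TT l f (rl w) = 0 ↔ TT (rlist l) (hh f) w = 0 := by
  rw [TT_rl', map_eq_zero, mul_eq_zero]
  exact ⟨fun h => h.resolve_left (pow_ne_zero _ (by norm_num)), Or.inr⟩

/-- the differential polynomial -/
noncomputable def DP (p : ℂ[X]) (f : ℂ → ℂ) (s : ℂ) : ℂ := p.sum fun j a => a * iteratedDeriv j f s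

theorem DP_eq (p : ℂ[X]) {f : ℂ → ℂ} (hf : Differentiable ℂ f) (s : ℂ) :
    DP p f s = p.leadingCoeff * TT p.roots.toList f s := by
  unfold DP
  rw [TT_eq_ev isOpen_univ _ hf.differentiableOn s (mem_univ s), ← ev_apply]
  have h1 := (IsAlgClosed.splits p).eq_prod_roots
  have h2 : (p.roots.toList.map (fun a => X - C a)).prod = (p.roots.map (X - C ·)).prod := by
    rw [← Multiset.prod_coe, ← Multiset.map_coe, Multiset.coe_toList]
  have h3 : p = p.leadingCoeff • (p.roots.toList.map (fun a => X - C a)).prod := by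
    rw [h2, ← C_mul']
    exact h1
  conv_lhs => rw [h3]
  rw [map_smul, smul_eq_mul]

theorem order_DP (p : ℂ[X]) (hp : p ≠ 0) {f : ℂ → ℂ} (hf : Differentiable ℂ f) (s : ℂ) :
    analyticOrderNatAt (DP p f) s = analyticOrderNatAt (TT p.roots.toList f) s := by
  have hev : DP p f = fun z => TT p.roots.toList f z * p.leadingCoeff := by
    funext z
    rw [DP_eq p hf z, mul_comm]
  rw [hev]
  exact order_mul_exp ((TT_entire _ hf).analyticAt _) (g := fun _ => p.leadingCoeff)
    analyticAt_const (leadingCoeff_ne_zero.2 hp)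

theorem zero_DP (p : ℂ[X]) (hp : p ≠ 0) {f : ℂ → ℂ} (hf : Differentiable ℂ f) (s : ℂ) :
    DP p f s = 0 ↔ TT p.roots.toList f s = 0 := by
  rw [DP_eq p hf, mul_eq_zero]
  exact ⟨fun h => h.resolve_left (leadingCoeff_ne_zero.2 hp), Or.inr⟩

variable {ι : Type} {f : ι → ℂ → ℂ}

theorem hh_fa_fun (f : ι → ℂ → ℂ) (a : ι × ℝ) :
    hh (fa f a) = fun w => hh (f a.1) (w + a.2 * I) := by
  funext w
  exact hh_fa f a w

theorem TT_fa (l : List ℂ) (f : ι → ℂ → ℂ) (a : ι × ℝ) (w : ℂ) :
    TT l (hh (fa f a)) w = TT l (hh (f a.1)) (w + a.2 * I) := by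
  rw [hh_fa_fun, TT_shift]

theorem order_fa (l : List ℂ) (f : ι → ℂ → ℂ) (a : ι × ℝ) (w : ℂ) :
    analyticOrderNatAt (TT l (hh (fa f a))) w =
      analyticOrderNatAt (TT l (hh (f a.1))) (w + a.2 * I) := by
  have h := order_affine (TT l (hh (f a.1))) (a.2 * I) (R := 1) one_ne_zero w
  have e : (fun z : ℂ => TT l (hh (f a.1)) (a.2 * I + 1 * z)) = TT l (hh (fa f a)) := by
    funext z
    rw [TT_fa]
    congr 1
    ring
  rw [e] at h
  rw [h]
  congr 1
  ring

theorem rl_shift_inj (c : ℂ) : Function.Injective fun w => rl (w + c) :=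
  rl_inj.comp (add_left_injective c)

theorem sub_rl_inj (c : ℂ) : Function.Injective fun s => rl s - c := by
  intro a b h
  simp only [sub_left_inj] at h
  exact rl_inj h

/-- from the differential polynomial to the reflected function -/
theorem ZL_to (p : ℂ[X]) (hp : p ≠ 0) (hf : ∀ i, Differentiable ℂ (f i)) (a : ι × ℝ)
    {U V : Set ℂ} {B : ℝ} (hUV : ∀ w ∈ U, rl (w + a.2 * I) ∈ V) (h : ZL (DP p (f a.1)) V B) :
    ZL (TT (rlist p.roots.toList) (hh (fa f a))) U B :=
  ZL.comp (rl_shift_inj (a.2 * I)) (fun w _ h0 => by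
      rw [zero_DP p hp (hf a.1), zero_rl', ← TT_fa]; exact h0)
    (fun w _ _ => by rw [order_fa, order_rl' _ (hf a.1), order_DP p hp (hf a.1)])
    (fun w hw _ => hUV w hw) h

/-- from the reflected function to the differential polynomial -/
theorem ZL_from (p : ℂ[X]) (hp : p ≠ 0) (hf : ∀ i, Differentiable ℂ (f i)) (a : ι × ℝ)
    {U V : Set ℂ} {B : ℝ} (hUV : ∀ s ∈ U, rl s - a.2 * I ∈ V)
    (h : ZL (TT (rlist p.roots.toList) (hh (fa f a))) V B) : ZL (DP p (f a.1)) U B :=
  ZL.comp (sub_rl_inj (a.2 * I)) (fun s _ h0 => by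
      rw [TT_fa, sub_add_cancel, ← zero_rl', rl_rl, ← zero_DP p hp (hf a.1)]; exact h0)
    (fun s _ _ => by
      rw [order_fa, order_rl' _ (hf a.1), order_DP p hp (hf a.1), sub_add_cancel, rl_rl])
    (fun s hs _ => hUV s hs) h

end Pool.Agent.N799.GL
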